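import Mathlib

set_option autoImplicit false

/-!
The set-splitting game on a set `E`.
-/

namespace Pool.Agent.H348R6.GM

universe u

/-- A move: the player picks the set `chosen` and splits it into `left` and `right`. -/
structure Move (E : Type u) where
  /-- the current set, picked by the player who moves -/
  chosen : Set E
  /-- the first part of the splitting of the current set -/
  left : Set E
  /-- the second part of the splitting of the current set -/
  right : Set E

variable {E : Type u}

/-- The move number `n` of the run `x` is legal: the two parts are disjoint and their union is the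
chosen set; the chosen set is `E` at move `0`, and one of the two parts of the previous splitting
at later moves. -/
def LegalAt (x : ℕ → Move E) (n : ℕ) : Prop :=
  ((x n).left ∪ (x n).right = (x n).chosen ∧ Disjoint (x n).left (x n).right) ∧
    (n = 0 → (x n).chosen = Set.univ) ∧
    ∀ m, n = m + 1 → (x n).chosen = (x m).left ∨ (x n).chosen = (x m).right

/-- The list of the first `n` moves of a run. -/
def hist (x : ℕ → Move E) (n : ℕ) : List (Move E) := (List.range n).map x

/-- Player A, who makes the moves number `0, 2, 4, …`, has a winning strategy: if A follows the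
strategy and B moves legally, then A moves legally and the intersection of the chosen sets is
empty. -/
def AWins (E : Type u) : Prop :=
  ∃ σ : List (Move E) → Move E, ∀ x : ℕ → Move E, (∀ n, Odd n → LegalAt x n) →
    (∀ n, Even n → x n = σ (hist x n)) →
      (∀ n, LegalAt x n) ∧ (⋂ n : ℕ, (x (n + 1)).chosen) = ∅

/-- Player B, who makes the moves number `1, 3, 5, …`, has a winning strategy: if B follows the
strategy and A moves legally, then B moves legally and the intersection of the chosen sets is
not empty. -/
def BWins (E : Type u) : Prop :=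
  ∃ τ : List (Move E) → Move E, ∀ x : ℕ → Move E, (∀ n, Even n → LegalAt x n) →
    (∀ n, Odd n → x n = τ (hist x n)) →
      (∀ n, LegalAt x n) ∧ (⋂ n : ℕ, (x (n + 1)).chosen).Nonempty

theorem hist_succ (x : ℕ → Move E) (n : ℕ) : hist x (n + 1) = hist x n ++ [x n] := by
  simp [hist, List.range_succ]

theorem length_hist (x : ℕ → Move E) (n : ℕ) : (hist x n).length = n := by
  simp [hist]

/-- The first `n` moves of the run in which every move is given by `F`. -/
def histF (F : List (Move E) → Move E) : ℕ → List (Move E)
  | 0 => []
  | n + 1 => histF F n ++ [F (histF F n)]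

/-- The run in which every move is given by `F`. -/
def mkPlay (F : List (Move E) → Move E) (n : ℕ) : Move E := F (histF F n)

theorem hist_mkPlay (F : List (Move E) → Move E) (n : ℕ) : hist (mkPlay F) n = histF F n := by
  induction n with
  | zero => rfl
  | succ n ih => rw [hist_succ, ih]; rfl

theorem mkPlay_eq (F : List (Move E) → Move E) (n : ℕ) :
    mkPlay F n = F (hist (mkPlay F) n) := by
  rw [hist_mkPlay]
  rfl

/-- The last move of a history. -/
def last (h : List (Move E)) : Move E := h.getLastD ⟨∅, ∅, ∅⟩

theorem last_concat (h : List (Move E)) (m : Move E) : last (h ++ [m]) = m := by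
  simp [last]

section A

variable (σ : List (Move E) → Move E) (d : E → ℕ → Bool)

/-- The set picked by B after the history `h`. -/
def bset (h : List (Move E)) (c : Bool) : Set E := if c then (last h).left else (last h).right

/-- The move of B which picks a part and splits it by the digit number `n`. -/
def bmove (h : List (Move E)) (c : Bool) (n : ℕ) : Move E :=
  ⟨bset h c, bset h c ∩ {y | d y n = true}, bset h c \ {y | d y n = true}⟩

open Classical in
/-- The sequence of digits which may be killed after the history `h`. -/
noncomputable def kill (h : List (Move E)) (c : Bool) (n : ℕ) : Bool :=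
  if (σ (h ++ [bmove d h c n])).chosen = bset h c ∩ {y | d y n = true} then false else true

/-- One more round, in which B picks the part `c` and splits by the digit `n`. -/
def ext (h : List (Move E)) (cn : Bool × ℕ) : List (Move E) :=
  (h ++ [bmove d h cn.1 cn.2]) ++ [σ (h ++ [bmove d h cn.1 cn.2])]

/-- The countably many histories which B considers. -/
def hset (l : List (Bool × ℕ)) : List (Move E) := l.foldl (ext σ d) [σ []]

open Classical in
/-- The play of B which keeps the point `a`. -/
noncomputable def fplay (a : E) (h : List (Move E)) : Move E :=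
  if Even h.length then σ h
  else bmove d h (decide (a ∈ (last h).left))
    (if H : ∃ n, d a n ≠ kill σ d h (decide (a ∈ (last h).left)) n then H.choose else 0)

theorem not_AWins_of_digits (hd : ¬ (Set.range d).Countable)
    (hσ : ∀ x : ℕ → Move E, (∀ n, Odd n → LegalAt x n) →
      (∀ n, Even n → x n = σ (hist x n)) →
        (∀ n, LegalAt x n) ∧ (⋂ n : ℕ, (x (n + 1)).chosen) = ∅) : False := by
  classical
  let K : Set (ℕ → Bool) := Set.range fun p : List (Bool × ℕ) × Bool => kill σ d (hset σ d p.1) p.2
  have hK : K.Countable := Set.countable_range _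
  have hex : ∃ a : E, d a ∉ K := by
    by_contra hcon
    push Not at hcon
    refine hd (hK.mono ?_)
    rintro _ ⟨a, rfl⟩
    exact hcon a
  obtain ⟨a, ha⟩ := hex
  let x : ℕ → Move E := mkPlay (fplay σ d a)
  have hxe : ∀ n, Even n → x n = σ (hist x n) := by
    intro n hn
    show mkPlay (fplay σ d a) n = _
    rw [mkPlay_eq, fplay, if_pos (by rw [length_hist]; exact hn)]
  have hxo : ∀ n, Odd n → x n = bmove d (hist x n) (decide (a ∈ (last (hist x n)).left))
      (if H : ∃ m, d a m ≠ kill σ d (hist x n) (decide (a ∈ (last (hist x n)).left)) m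
        then H.choose else 0) := by
    intro n hn
    show mkPlay (fplay σ d a) n = _
    rw [mkPlay_eq, fplay, if_neg (by rw [length_hist, Nat.not_even_iff_odd]; exact hn)]
  have hmem : ∀ k, ∃ l, hist x (2 * k + 1) = hset σ d l := by
    intro k
    induction k with
    | zero =>
      refine ⟨[], ?_⟩
      rw [hist_succ, hxe 0 (by simp)]
      simp [hist, hset]
    | succ k ih =>
      obtain ⟨l, hl⟩ := ih
      have h1 : hist x (2 * (k + 1) + 1) =
          (hist x (2 * k + 1) ++ [x (2 * k + 1)]) ++ [x (2 * k + 2)] := by
        rw [show 2 * (k + 1) + 1 = (2 * k + 1 + 1) + 1 by ring, hist_succ, hist_succ]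
      have h2 := hxe (2 * k + 2) ⟨k + 1, by ring⟩
      rw [show 2 * k + 2 = (2 * k + 1) + 1 by ring, hist_succ] at h2
      have h3 := hxo (2 * k + 1) ⟨k, rfl⟩
      refine ⟨l ++ [(decide (a ∈ (last (hist x (2 * k + 1))).left),
        (if H : ∃ m, d a m ≠ kill σ d (hist x (2 * k + 1))
          (decide (a ∈ (last (hist x (2 * k + 1))).left)) m then H.choose else 0))], ?_⟩
      rw [h1, hset, List.foldl_append]
      show _ = ext σ d (hset σ d l) _
      rw [← hl, ext]
      show _ = (_ ++ [bmove d _ _ _]) ++ [σ (_ ++ [bmove d _ _ _])]
      rw [← h3, ← h2]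
  have hlast : ∀ n, last (hist x (n + 1)) = x n := fun n => by rw [hist_succ, last_concat]
  have hB : ∀ n, Odd n → LegalAt x n := by
    intro n hn
    obtain ⟨m, rfl⟩ : ∃ m, n = m + 1 := ⟨n - 1, by have := hn.pos; omega⟩
    have h3 := hxo (m + 1) hn
    rw [hlast] at h3
    refine ⟨?_, fun h => by omega, ?_⟩
    · rw [h3]
      exact ⟨Set.inter_union_sdiff _ _, Set.disjoint_sdiff_right.mono_left Set.inter_subset_right⟩
    · intro m' hm'
      obtain rfl : m' = m := by omega
      rw [h3]
      simp only [bmove, bset, hlast]
      split_ifs <;> simp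
  obtain ⟨hleg, hemp⟩ := hσ x hB hxe
  have hin : ∀ n, a ∈ (x n).chosen := by
    intro n
    induction n with
    | zero => rw [(hleg 0).2.1 rfl]; trivial
    | succ n ih =>
      rcases Nat.even_or_odd n with hn | hn
      · have h3 := hxo (n + 1) hn.add_one
        rw [hlast] at h3
        rw [h3]
        simp only [bmove, bset, hlast]
        by_cases hal : a ∈ (x n).left
        · simp [hal]
        · have : a ∈ (x n).left ∪ (x n).right := by rw [(hleg n).1.1]; exact ih
          simpa [hal] using this
      · obtain ⟨k, rfl⟩ := hn
        obtain ⟨l, hl⟩ := hmem k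
        set c : Bool := decide (a ∈ (last (hist x (2 * k + 1))).left) with hc
        have hne : ∃ m, d a m ≠ kill σ d (hist x (2 * k + 1)) c m := by
          by_contra hcon
          push Not at hcon
          refine ha ⟨(l, c), ?_⟩
          show kill σ d (hset σ d l) c = d a
          rw [← hl]
          exact (funext hcon).symm
        have h3 := hxo (2 * k + 1) ⟨k, rfl⟩
        rw [← hc, dif_pos hne] at h3
        have h4 := hne.choose_spec
        set m := hne.choose with hm
        have h5 := hxe (2 * k + 1 + 1) ⟨k + 1, by ring⟩
        rw [hist_succ] at h5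
        have h6 : (x (2 * k + 1)).chosen = bset (hist x (2 * k + 1)) c := by rw [h3]; rfl
        have h7 : (x (2 * k + 1)).left = bset (hist x (2 * k + 1)) c ∩ {y | d y m = true} := by
          rw [h3]; rfl
        have h8 : (x (2 * k + 1)).right = bset (hist x (2 * k + 1)) c \ {y | d y m = true} := by
          rw [h3]; rfl
        have h9 := (hleg (2 * k + 1 + 1)).2.2 (2 * k + 1) rfl
        rw [h7, h8] at h9
        rw [h6] at ih
        rw [kill, ← h3, ← h5] at h4
        by_cases hch : (x (2 * k + 1 + 1)).chosen =
            bset (hist x (2 * k + 1)) c ∩ {y | d y m = true}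
        · rw [if_pos hch] at h4
          rw [hch]
          exact ⟨ih, by simpa using h4⟩
        · rw [if_neg hch] at h4
          rcases h9 with h9 | h9
          · exact absurd h9 hch
          · rw [h9]
            exact ⟨ih, by simpa using h4⟩
  have : a ∈ (⋂ n : ℕ, (x (n + 1)).chosen) := Set.mem_iInter.2 fun n => hin (n + 1)
  rw [hemp] at this
  exact this

end A

/-- An uncountable type has a function to `2^ω` with uncountable range. -/
theorem exists_digits (E : Type u) [Uncountable E] :
    ∃ d : E → ℕ → Bool, ¬ (Set.range d).Countable := by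
  classical
  open Cardinal in
  have h1 : ℵ_ 1 ≤ #E := by
    rw [← Cardinal.succ_aleph0, Order.succ_le_iff]
    exact Cardinal.aleph0_lt_mk_iff.2 inferInstance
  have h2 : Cardinal.aleph 1 ≤ Cardinal.mk (ℕ → Bool) := by
    rw [← Cardinal.succ_aleph0, Order.succ_le_iff]
    have : Cardinal.mk (ℕ → Bool) = 2 ^ Cardinal.aleph0 := by simp
    rw [this]
    exact Cardinal.cantor _
  obtain ⟨T, hT⟩ := Cardinal.le_mk_iff_exists_set.1 h1
  obtain ⟨S, hS⟩ := Cardinal.le_mk_iff_exists_set.1 h2
  have h3 : Cardinal.lift.{0} (Cardinal.mk T) = Cardinal.lift.{u} (Cardinal.mk S) := by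
    rw [hT, hS]
    simp
  obtain ⟨e⟩ := Cardinal.lift_mk_eq'.1 h3
  refine ⟨fun y => if h : y ∈ T then (e ⟨y, h⟩).1 else fun _ => false, fun hc => ?_⟩
  have hsub : S ⊆ Set.range (fun y : E => if h : y ∈ T then (e ⟨y, h⟩).1 else fun _ => false) := by
    intro s hs
    refine ⟨(e.symm ⟨s, hs⟩).1, ?_⟩
    simp
  have hSc : S.Countable := hc.mono hsub
  have := hSc.le_aleph0
  rw [hS] at this
  exact absurd this (not_le.2 Cardinal.aleph0_lt_aleph_one)

theorem not_AWins (E : Type u) [Uncountable E] : ¬ AWins E := by
  rintro ⟨σ, hσ⟩
  obtain ⟨d, hd⟩ := exists_digits E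
  exact not_AWins_of_digits σ d hd hσ

end Pool.Agent.H348R6.GM
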