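import Mathlib
import Pool.Agent.H348R6.GM1

set_option autoImplicit false

/-!
A Bernstein set, and the second player in the set-splitting game.
-/

namespace Pool.Agent.H348R6.GM

open Cardinal

universe u

section bern

variable {W X : Type u} [LinearOrder W] [WellFoundedLT W] [Nonempty X]

/-- Two new points of each set of a well-ordered family of sets. -/
noncomputable def bp (R : W → Set X) : W → X × X :=
  (wellFounded_lt (α := W)).fix fun w ih =>
    Classical.epsilon fun ab : X × X => (ab.1 ≠ ab.2 ∧ ab.1 ∈ R w ∧ ab.2 ∈ R w) ∧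
      ∀ v : Set.Iio w, (ab.1 ≠ (ih v.1 v.2).1 ∧ ab.1 ≠ (ih v.1 v.2).2) ∧
        (ab.2 ≠ (ih v.1 v.2).1 ∧ ab.2 ≠ (ih v.1 v.2).2)

theorem bp_eq (R : W → Set X) (w : W) : bp R w =
    Classical.epsilon fun ab : X × X => (ab.1 ≠ ab.2 ∧ ab.1 ∈ R w ∧ ab.2 ∈ R w) ∧
      ∀ v : Set.Iio w, (ab.1 ≠ (bp R v.1).1 ∧ ab.1 ≠ (bp R v.1).2) ∧
        (ab.2 ≠ (bp R v.1).1 ∧ ab.2 ≠ (bp R v.1).2) := by
  rw [bp, WellFounded.fix_eq]

theorem bp_spec (R : W → Set X) (hX : ℵ₀ ≤ #X) (hR : ∀ w, #(R w) = #X)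
    (hW : ∀ w : W, #(Set.Iio w) < #X) (w : W) :
    ((bp R w).1 ≠ (bp R w).2 ∧ (bp R w).1 ∈ R w ∧ (bp R w).2 ∈ R w) ∧
    ∀ v, v < w → ((bp R w).1 ≠ (bp R v).1 ∧ (bp R w).1 ≠ (bp R v).2) ∧
      ((bp R w).2 ≠ (bp R v).1 ∧ (bp R w).2 ≠ (bp R v).2) := by
  have hex : ∃ ab : X × X, (ab.1 ≠ ab.2 ∧ ab.1 ∈ R w ∧ ab.2 ∈ R w) ∧
    ∀ v : Set.Iio w, (ab.1 ≠ (bp R v.1).1 ∧ ab.1 ≠ (bp R v.1).2) ∧
      (ab.2 ≠ (bp R v.1).1 ∧ ab.2 ≠ (bp R v.1).2) := by
    let S : Set X := (Set.range fun v : Set.Iio w => (bp R v.1).1) ∪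
      (Set.range fun v : Set.Iio w => (bp R v.1).2)
    have hS : #S < #X := by
      refine (Cardinal.mk_union_le _ _).trans_lt ?_
      exact Cardinal.add_lt_of_lt hX (Cardinal.mk_range_le.trans_lt (hW w))
        (Cardinal.mk_range_le.trans_lt (hW w))
    have h1 : ∀ T : Set X, #T < #X → ∃ a ∈ R w, a ∉ T := by
      intro T hT
      by_contra hcon
      push Not at hcon
      have := Cardinal.mk_le_mk_of_subset (show R w ⊆ T from hcon)
      rw [hR] at this
      exact absurd this (not_le.2 hT)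
    obtain ⟨a, ha, haS⟩ := h1 S hS
    obtain ⟨b, hb, hbS⟩ := h1 (insert a S) (by
      refine (Cardinal.mk_insert_le).trans_lt ?_
      exact Cardinal.add_lt_of_lt hX hS (Cardinal.one_lt_aleph0.trans_le hX))
    refine ⟨(a, b), ⟨?_, ha, hb⟩, fun v => ⟨⟨?_, ?_⟩, ⟨?_, ?_⟩⟩⟩
    · intro h
      have h' : a = b := h
      exact hbS (h' ▸ Set.mem_insert _ _)
    · rintro h
      exact haS (Or.inl ⟨v, h.symm⟩)
    · rintro h
      exact haS (Or.inr ⟨v, h.symm⟩)
    · rintro h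
      exact hbS (Set.mem_insert_of_mem _ (Or.inl ⟨v, h.symm⟩))
    · rintro h
      exact hbS (Set.mem_insert_of_mem _ (Or.inr ⟨v, h.symm⟩))
  have h := Classical.epsilon_spec hex
  rw [← bp_eq] at h
  exact ⟨h.1, fun v hv => h.2 ⟨v, hv⟩⟩

end bern

/-- Bernstein's construction. -/
theorem bernstein {X I : Type u} (hX : ℵ₀ ≤ #X) (hI : #I ≤ #X) (R : I → Set X)
    (hR : ∀ i, #(R i) = #X) : ∃ B : Set X, #B = #X ∧ ∀ i, ¬ R i ⊆ B := by
  classical
  rcases isEmpty_or_nonempty I with hE | hE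
  · exact ⟨Set.univ, by simp, fun i => (IsEmpty.false i).elim⟩
  have hXne : Nonempty X := by
    rw [← Cardinal.mk_ne_zero_iff]
    exact (Cardinal.aleph0_pos.trans_le hX).ne'
  let W : Type u := (#X).ord.ToType
  have hWX : #W = #X := by
    show #((#X).ord.ToType) = #X
    rw [Cardinal.mk_toType, Cardinal.card_ord]
  obtain ⟨f, hf⟩ : ∃ f : W → I, Function.Surjective f := by
    have h : #I ≤ #W := by rw [hWX]; exact hI
    obtain ⟨e⟩ := h
    exact ⟨Function.invFun e, Function.invFun_surjective e.injective⟩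
  have hW : ∀ w : W, #(Set.Iio w) < #X := fun w => by
    have := Cardinal.mk_Iio_lt w (by
      rw [hWX]
      exact (Ordinal.type_toType _).symm)
    rwa [hWX] at this
  have hs := bp_spec (fun w => R (f w)) hX (fun w => hR (f w)) hW
  refine ⟨Set.range fun w => (bp (fun w => R (f w)) w).1, ?_, ?_⟩
  · rw [Cardinal.mk_range_eq _ ?_, hWX]
    intro v w hvw
    by_contra hne
    rcases lt_or_gt_of_ne hne with h | h
    · exact ((hs w).2 v h).1.1 hvw.symm
    · exact ((hs v).2 w h).1.1 hvw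
  · intro i hi
    obtain ⟨w, rfl⟩ := hf i
    obtain ⟨v, hv⟩ := hi (hs w).1.2.2
    rcases lt_trichotomy v w with h | h | h
    · exact ((hs w).2 v h).2.1 hv.symm
    · subst h
      exact (hs v).1.1 hv
    · exact ((hs v).2 w h).1.2 hv

/-- The function on `2^ω` given by a function on finite sequences. -/
def Phi (φ : List Bool → Bool) (c : ℕ → Bool) (k : ℕ) : Bool := φ ((List.range k).map c)

/-- A set of size continuum which contains no image of `2^ω` under an injection given by a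
function on finite sequences. -/
theorem exists_bernstein : ∃ B : Set (ℕ → Bool), #B = #(ℕ → Bool) ∧
    ∀ φ : List Bool → Bool, Function.Injective (Phi φ) → ¬ Set.range (Phi φ) ⊆ B := by
  have hX : ℵ₀ ≤ #(ℕ → Bool) := by simp [Cardinal.aleph0_le_continuum]
  have hI : #{φ : List Bool → Bool // Function.Injective (Phi φ)} ≤ #(ℕ → Bool) := by
    refine (Cardinal.mk_subtype_le _).trans ?_
    simp
  obtain ⟨B, hB, hB2⟩ := bernstein hX hI (fun φ => Set.range (Phi φ.1))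
    (fun φ => Cardinal.mk_range_eq _ φ.2)
  exact ⟨B, hB, fun φ hφ => hB2 ⟨φ, hφ⟩⟩

end Pool.Agent.H348R6.GM
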