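import Mathlib
import Pool.Agent.H348R6.GM2

set_option autoImplicit false

/-!
The second player has no winning strategy on sets of size at most the continuum.
-/

namespace Pool.Agent.H348R6.GM

open Cardinal

universe u

variable {E : Type u} (τ : List (Move E) → Move E) (g : E → ℕ → Bool)

/-- The set picked by A after the history `h`, according to the bits `c`. -/
def aset (c : ℕ → Bool) (h : List (Move E)) : Set E :=
  if h.length = 0 then Set.univ
  else if c (h.length / 2 - 1) then (last h).left else (last h).right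

open Classical in
/-- The play in which A picks by the bits `c` and splits by the digits of `g`. -/
noncomputable def aplay (c : ℕ → Bool) (h : List (Move E)) : Move E :=
  if Even h.length then
    ⟨aset c h, aset c h ∩ {y | g y (h.length / 2) = true},
      aset c h \ {y | g y (h.length / 2) = true}⟩
  else τ h

theorem mkPlay_even (c : ℕ → Bool) (n : ℕ) (hn : Even n) :
    mkPlay (aplay τ g c) n =
      ⟨aset c (hist (mkPlay (aplay τ g c)) n),
        aset c (hist (mkPlay (aplay τ g c)) n) ∩ {y | g y (n / 2) = true},
        aset c (hist (mkPlay (aplay τ g c)) n) \ {y | g y (n / 2) = true}⟩ := by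
  rw [mkPlay_eq, aplay, if_pos (by rw [length_hist]; exact hn), length_hist]

theorem mkPlay_odd (c : ℕ → Bool) (n : ℕ) (hn : Odd n) :
    mkPlay (aplay τ g c) n = τ (hist (mkPlay (aplay τ g c)) n) := by
  rw [mkPlay_eq, aplay, if_neg (by rw [length_hist, Nat.not_even_iff_odd]; exact hn)]

theorem legal_even (c : ℕ → Bool) (n : ℕ) (hn : Even n) :
    LegalAt (mkPlay (aplay τ g c)) n := by
  have h := mkPlay_even τ g c n hn
  refine ⟨?_, ?_, ?_⟩
  · rw [h]
    exact ⟨Set.inter_union_sdiff _ _, Set.disjoint_sdiff_right.mono_left Set.inter_subset_right⟩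
  · rintro rfl
    rw [h]
    simp [aset, length_hist]
  · rintro m rfl
    rw [h]
    simp only [aset, hist_succ, last_concat]
    split_ifs with h1 h2
    · simp at h1
    · exact Or.inl rfl
    · exact Or.inr rfl

theorem hist_succ_congr {x x' : ℕ → Move E} {n : ℕ} (h : hist x n = hist x' n)
    (h' : x n = x' n) : hist x (n + 1) = hist x' (n + 1) := by
  rw [hist_succ x, hist_succ x', h, h']

theorem of_hist_succ_congr {x x' : ℕ → Move E} {n : ℕ} (h : hist x (n + 1) = hist x' (n + 1)) :
    hist x n = hist x' n ∧ x n = x' n := by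
  rw [hist_succ x, hist_succ x'] at h
  have h2 := List.append_inj' h rfl
  exact ⟨h2.1, by simpa using h2.2⟩

/-- The run up to the move `2 k + 1` depends only on the first `k` bits. -/
theorem hist_congr (c c' : ℕ → Bool) (k : ℕ) (h : ∀ i, i < k → c i = c' i) :
    hist (mkPlay (aplay τ g c)) (2 * k + 2) = hist (mkPlay (aplay τ g c')) (2 * k + 2) := by
  induction k with
  | zero =>
    have e0 : hist (mkPlay (aplay τ g c)) 0 = hist (mkPlay (aplay τ g c')) 0 := rfl
    have e1 : mkPlay (aplay τ g c) 0 = mkPlay (aplay τ g c') 0 := by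
      rw [mkPlay_even τ g c 0 (by simp), mkPlay_even τ g c' 0 (by simp)]
      simp [aset, length_hist]
    have e2 : hist (mkPlay (aplay τ g c)) 1 = hist (mkPlay (aplay τ g c')) 1 :=
      hist_succ_congr e0 e1
    refine hist_succ_congr (n := 1) e2 ?_
    rw [mkPlay_odd τ g c 1 (by simp), mkPlay_odd τ g c' 1 (by simp), e2]
  | succ k ih =>
    have ih' := ih fun i hi => h i (by omega)
    have hlen : (2 * k + 2) / 2 - 1 = k := by omega
    have e1 : mkPlay (aplay τ g c) (2 * k + 2) = mkPlay (aplay τ g c') (2 * k + 2) := by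
      rw [mkPlay_even τ g c _ ⟨k + 1, by ring⟩, mkPlay_even τ g c' _ ⟨k + 1, by ring⟩, ih']
      have : aset c (hist (mkPlay (aplay τ g c')) (2 * k + 2)) =
          aset c' (hist (mkPlay (aplay τ g c')) (2 * k + 2)) := by
        simp only [aset, length_hist, hlen]
        rw [h k (by omega)]
      rw [this]
    have e2 : hist (mkPlay (aplay τ g c)) (2 * k + 3) =
        hist (mkPlay (aplay τ g c')) (2 * k + 3) := hist_succ_congr ih' e1
    refine hist_succ_congr (n := 2 * k + 3) e2 ?_
    rw [mkPlay_odd τ g c _ ⟨k + 1, by ring⟩, mkPlay_odd τ g c' _ ⟨k + 1, by ring⟩, e2]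

theorem move_congr (c c' : ℕ → Bool) (k : ℕ) (h : ∀ i, i < k → c i = c' i) :
    mkPlay (aplay τ g c) (2 * k) = mkPlay (aplay τ g c') (2 * k) ∧
      mkPlay (aplay τ g c) (2 * k + 1) = mkPlay (aplay τ g c') (2 * k + 1) := by
  have h1 := of_hist_succ_congr (n := 2 * k + 1) (hist_congr τ g c c' k h)
  exact ⟨(of_hist_succ_congr h1.1).2, h1.2⟩

theorem not_BWins (hE : #E ≤ Cardinal.continuum) : ¬ BWins E := by
  classical
  rintro ⟨τ, hτ⟩
  obtain ⟨B, hB, hBer⟩ := exists_bernstein
  have hinj : ∃ g : E → ℕ → Bool, Function.Injective g ∧ Set.range g ⊆ B := by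
    have h1 : Cardinal.lift.{0} #E ≤ Cardinal.lift.{u} #B := by
      rw [hB]
      simpa using hE
    obtain ⟨e⟩ := Cardinal.lift_mk_le'.1 h1
    refine ⟨fun y => (e y).1, fun y y' h => e.injective (Subtype.ext h), ?_⟩
    rintro _ ⟨y, rfl⟩
    exact (e y).2
  obtain ⟨g, hg, hgB⟩ := hinj
  have hrun := fun c : ℕ → Bool => hτ (mkPlay (aplay τ g c))
    (fun n hn => legal_even τ g c n hn) (fun n hn => mkPlay_odd τ g c n hn)
  have hleg := fun c => (hrun c).1
  choose y hy using fun c => (hrun c).2
  have hmem : ∀ c n, y c ∈ (mkPlay (aplay τ g c) n).chosen := by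
    intro c n
    cases n with
    | zero => rw [(hleg c 0).2.1 rfl]; trivial
    | succ n => exact Set.mem_iInter.1 (hy c) n
  -- the digits of the surviving point are determined by the bits played before
  have hdig : ∀ c c' k, (∀ i, i < k → c i = c' i) → g (y c) k = g (y c') k := by
    intro c c' k h
    obtain ⟨h1, h2⟩ := move_congr τ g c c' k h
    have h3 := mkPlay_even τ g c (2 * k) ⟨k, by ring⟩
    rw [show 2 * k / 2 = k by omega] at h3
    have hc := hmem c (2 * k + 1)
    have hc' := hmem c' (2 * k + 1)
    rw [← h2] at hc'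
    rcases (hleg c (2 * k + 1)).2.2 (2 * k) rfl with h4 | h4
    · rw [h4, h3] at hc hc'
      rw [hc.2, hc'.2]
    · rw [h4, h3] at hc hc'
      have a1 : g (y c) k = false := by simpa using hc.2
      have a2 : g (y c') k = false := by simpa using hc'.2
      rw [a1, a2]
  have hyinj : Function.Injective y := by
    intro c c' hcc
    by_contra hne
    have hex : ∃ k, c k ≠ c' k := by
      by_contra hcon
      push Not at hcon
      exact hne (funext hcon)
    have hk := Nat.find_spec hex
    set k := Nat.find hex with hkdef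
    have hlt : ∀ i, i < k → c i = c' i := fun i hi => by
      have := Nat.find_min hex hi
      push Not at this
      exact this
    have hh := hist_congr τ g c c' k hlt
    obtain ⟨_, h2⟩ := move_congr τ g c c' k hlt
    have hd := (hleg c (2 * k + 1)).1.2
    have key : ∀ b : ℕ → Bool, hist (mkPlay (aplay τ g b)) (2 * k + 2) =
        hist (mkPlay (aplay τ g c)) (2 * k + 2) → y b ∈
        (if b k then (mkPlay (aplay τ g c) (2 * k + 1)).left
          else (mkPlay (aplay τ g c) (2 * k + 1)).right) := by
      intro b hb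
      have h4 := hmem b (2 * k + 2)
      rw [mkPlay_even τ g b (2 * k + 2) ⟨k + 1, by ring⟩, hb] at h4
      simp only [aset, length_hist] at h4
      rw [if_neg (by omega), show (2 * k + 2) / 2 - 1 = k by omega,
        show 2 * k + 2 = (2 * k + 1) + 1 by ring, hist_succ, last_concat] at h4
      exact h4
    have k1 := key c rfl
    have k2 := key c' hh.symm
    rw [← hcc] at k2
    rcases hck : c k with _ | _ <;> rcases hck' : c' k with _ | _
    · exact hk (hck.trans hck'.symm)
    · rw [hck] at k1
      rw [hck'] at k2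
      exact Set.disjoint_left.1 hd k2 k1
    · rw [hck] at k1
      rw [hck'] at k2
      exact Set.disjoint_left.1 hd k1 k2
    · exact hk (hck.trans hck'.symm)
  let φ : List Bool → Bool := fun l => g (y fun i => l.getD i false) l.length
  have hφ : Phi φ = fun c => g (y c) := by
    funext c k
    show g (y fun i => ((List.range k).map c).getD i false) ((List.range k).map c).length = _
    rw [List.length_map, List.length_range]
    refine hdig _ _ _ fun i hi => ?_
    simp [List.getD, hi]
  refine hBer φ ?_ ?_
  · rw [hφ]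
    exact hg.comp hyinj
  · rw [hφ]
    rintro _ ⟨c, rfl⟩
    exact hgB ⟨y c, rfl⟩

end Pool.Agent.H348R6.GM
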