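import Mathlib

set_option autoImplicit false

/-! Thin (nonstationary) subsets of a regular well-order, described by functions.
(The thin-set part follows the starting file `Pool.Agent.H31R3.NonStat`, here in every universe.) -/

namespace Pool.Agent.H348R6.GV

open Cardinal Set

universe u

section Thin

variable {L : Type u} [LinearOrder L]

/-- `A` is thin if some function `f` has no closure point in `A`, apart from the least point. -/
def Thin (A : Set L) : Prop :=
  ∃ f : L → L, ∀ a ∈ A, (∀ b, ¬ b < a) ∨ ∃ b, b < a ∧ a ≤ f b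

theorem Thin.mono {A B : Set L} (h : Thin B) (hAB : A ⊆ B) : Thin A := by
  obtain ⟨f, hf⟩ := h
  exact ⟨f, fun a ha => hf a (hAB ha)⟩

theorem thin_empty : Thin (∅ : Set L) := ⟨id, fun a ha => absurd ha (by simp)⟩

/-- A small union of thin sets is thin. -/
theorem thin_iUnion {ι : Type u} (hc : ∀ g : ι → L, ∃ b, ∀ n, g n < b) {A : ι → Set L}
    (h : ∀ n, Thin (A n)) : Thin (⋃ n, A n) := by
  choose f hf using h
  choose F hF using fun b => hc (fun n => f n b)
  refine ⟨F, fun a ha => ?_⟩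
  obtain ⟨n, hn⟩ := mem_iUnion.1 ha
  rcases hf n a hn with h | ⟨b, hb, hab⟩
  · exact Or.inl h
  · exact Or.inr ⟨b, hb, hab.trans (hF b n).le⟩

theorem thin_Iic (c : L) : Thin (Iic c) := by
  refine ⟨fun _ => c, fun a ha => ?_⟩
  by_cases h : ∀ b, ¬ b < a
  · exact Or.inl h
  · push Not at h
    obtain ⟨b, hb⟩ := h
    exact Or.inr ⟨b, hb, ha⟩

/-- Fodor's lemma for thin sets. -/
theorem fodor (hreg : ∀ (a : L) (g : Iic a × Iic a → L), ∃ c, ∀ i, g i < c)
    {A : Set L} (g : L → L) (hg : ∀ a ∈ A, g a < a)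
    (h : ∀ c, Thin {a ∈ A | g a = c}) : Thin A := by
  choose f hf using h
  choose F hF using fun b => hreg b (fun p => f p.1.1 p.2.1)
  refine ⟨F, fun a ha => Or.inr ?_⟩
  have hga := hg a ha
  rcases hf (g a) a ⟨ha, rfl⟩ with h | ⟨b, hb, hab⟩
  · exact absurd hga (h _)
  · refine ⟨max (g a) b, max_lt hga hb, hab.trans ?_⟩
    exact (hF (max (g a) b) (⟨g a, le_max_left _ _⟩, ⟨b, le_max_right _ _⟩)).le

/-- Limits of increasing sequences. -/
def LimSeq (α : L) (a : ℕ → L) : Prop := (∀ n, a n < α) ∧ ∀ b < α, ∃ n, b < a n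

/-- The points that are limits of sequences. -/
def E (L : Type u) [LinearOrder L] : Set L := {α | ∃ a, LimSeq α a}

theorem not_thin_E [WellFoundedLT L] [Nonempty L]
    (hc : ∀ g : ℕ → L, ∃ b, ∀ n, g n < b)
    (hreg : ∀ (a : L) (g : Iic a × Iic a → L), ∃ c, ∀ i, g i < c) : ¬ Thin (E L) := by
  rintro ⟨f, hf⟩
  have step : ∀ a : L, ∃ c, a < c ∧ ∀ b ≤ a, f b < c := by
    intro a
    obtain ⟨c, hc1⟩ := hreg a (fun p => max (f p.1.1) a)
    refine ⟨c, ?_, fun b hb => ?_⟩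
    · exact lt_of_le_of_lt (le_max_right _ _) (hc1 (⟨a, le_refl a⟩, ⟨a, le_refl a⟩))
    · exact lt_of_le_of_lt (le_max_left _ _) (hc1 (⟨b, hb⟩, ⟨a, le_refl a⟩))
  choose s hs1 hs2 using step
  obtain ⟨a0⟩ := ‹Nonempty L›
  let a : ℕ → L := fun n => Nat.rec a0 (fun _ x => s x) n
  have ha1 : ∀ n, a n < a (n + 1) := fun n => hs1 (a n)
  have ha2 : ∀ n, ∀ b ≤ a n, f b < a (n + 1) := fun n => hs2 (a n)
  have hne : {b : L | ∀ n, a n < b}.Nonempty := hc a
  let α := WellFounded.min (wellFounded_lt (α := L)) {b : L | ∀ n, a n < b} hne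
  have hα : ∀ n, a n < α := WellFounded.min_mem (wellFounded_lt (α := L)) _ hne
  have hα2 : ∀ b < α, ∃ n, b ≤ a n := by
    intro b hb
    by_contra hcon
    push Not at hcon
    exact WellFounded.not_lt_min (wellFounded_lt (α := L)) {b : L | ∀ n, a n < b} hcon hb
  have hαE : α ∈ E L := by
    refine ⟨a, hα, fun b hb => ?_⟩
    obtain ⟨n, hn⟩ := hα2 b hb
    exact ⟨n + 1, lt_of_le_of_lt hn (ha1 n)⟩
  rcases hf α hαE with h | ⟨b, hb, hab⟩
  · exact h _ (hα 0)
  · obtain ⟨n, hn⟩ := hα2 b hb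
    exact absurd (hab.trans_lt ((ha2 n b hn).trans (hα (n + 1)))) (lt_irrefl _)

/-- There is a set and a regressive function on it with cofinally many nonthin fibres. -/
theorem exists_split [WellFoundedLT L] [Nonempty L]
    (hcU : ∀ {ι : Type u} [Countable ι] (g : ι → L), ∃ b, ∀ n, g n < b)
    (hc : ∀ g : ℕ → L, ∃ b, ∀ n, g n < b)
    (hreg : ∀ (a : L) (g : Iic a × Iic a → L), ∃ c, ∀ i, g i < c) :
    ∃ (A : Set L) (g : L → L), ∀ η : L, ∃ γ, η ≤ γ ∧ ¬ Thin {a ∈ A | g a = γ} := by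
  classical
  have hE : ∀ α ∈ E L, ∃ a : ℕ → L, LimSeq α a := fun α h => h
  choose! a ha using hE
  have key : ∃ n, ∀ η, ¬ Thin {α ∈ E L | η ≤ a α n} := by
    by_contra hcon
    push Not at hcon
    choose η hη using hcon
    obtain ⟨c, hcη⟩ := hc η
    have h1 := thin_iUnion (ι := ULift.{u} ℕ) (fun g => hcU g)
      (A := fun n => {α ∈ E L | η n.down ≤ a α n.down}) (fun n => hη n.down)
    have h2 : Thin ((⋃ n : ULift.{u} ℕ, {α ∈ E L | η n.down ≤ a α n.down}) ∪ Iic c) := by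
      have := thin_iUnion (ι := ULift.{u} Bool) (fun g => hcU g)
        (A := fun b => if b.down then (⋃ n : ULift.{u} ℕ, {α ∈ E L | η n.down ≤ a α n.down})
          else Iic c)
        (fun b => by by_cases hb : b.down <;> simp [hb, h1, thin_Iic])
      refine this.mono ?_
      rintro x (hx | hx)
      · exact mem_iUnion.2 ⟨⟨true⟩, by simpa using hx⟩
      · exact mem_iUnion.2 ⟨⟨false⟩, by simpa using hx⟩
    refine not_thin_E hc hreg (h2.mono ?_)
    intro α hα
    by_cases hαc : α ≤ c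
    · exact Or.inr hαc
    · left
      push Not at hαc
      obtain ⟨n, hn⟩ := (ha α hα).2 c hαc
      exact mem_iUnion.2 ⟨⟨n⟩, hα, ((hcη n).trans hn).le⟩
  obtain ⟨n, hn⟩ := key
  refine ⟨E L, fun α => a α n, fun η => ?_⟩
  by_contra hcon
  push Not at hcon
  refine hn η (fodor hreg (fun α => a α n) (fun α hα => (ha α hα.1).1 n) ?_)
  intro γ
  by_cases hγ : η ≤ γ
  · exact (hcon γ hγ).mono (fun α hα => ⟨hα.1.1, hα.2⟩)
  · refine ⟨id, ?_⟩
    rintro α ⟨⟨_, h1⟩, h2⟩
    exact absurd (h2 ▸ h1) hγ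

/-- The complement of a club is thin. -/
theorem thin_compl_of_isClub {C : Set L} (hno : ∀ a : L, ∃ b, a < b) (hC : IsClub C) :
    Thin Cᶜ := by
  have hex : ∀ b : L, ∃ c ∈ C, b < c := by
    intro b
    obtain ⟨b', hb'⟩ := hno b
    obtain ⟨c, hc, hbc⟩ := hC.isCofinal b'
    exact ⟨c, hc, hb'.trans_le hbc⟩
  choose f hf1 hf2 using hex
  refine ⟨f, fun a ha => ?_⟩
  by_contra hcon
  push Not at hcon
  obtain ⟨⟨b0, hb0⟩, hcl⟩ := hcon
  refine ha (hC.isLUB_mem (t := C ∩ Iio a) inter_subset_left ⟨f b0, hf1 b0, hcl b0 hb0⟩ ?_)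
  refine ⟨fun x hx => hx.2.le, fun b hb => ?_⟩
  by_contra hba
  push Not at hba
  exact absurd (hb ⟨hf1 b, hcl b hba⟩) (not_le.2 (hf2 b))

end Thin

/-- Definition by well-founded recursion with choices. -/
theorem exists_rec {Λ : Type*} [LinearOrder Λ] [WellFoundedLT Λ] {α : Type*}
    (P : (i : Λ) → (Iio i → α) → α → Prop) (h : ∀ i f, ∃ x, P i f x) :
    ∃ F : Λ → α, ∀ i, P i (fun j => F j.1) (F i) := by
  classical
  choose c hc using h
  let F : Λ → α := (wellFounded_lt (α := Λ)).fix (fun i f => c i (fun j => f j.1 j.2))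
  refine ⟨F, fun i => ?_⟩
  have : F i = c i (fun j => F j.1) := (wellFounded_lt (α := Λ)).fix_eq _ i
  rw [this]
  exact hc i _

section Main

variable {κ : Cardinal.{u}}

theorem cof_toType_eq (hκ : κ.IsRegular) : Order.cof κ.ord.ToType = κ := by
  rw [Ordinal.cof_toType, hκ.cof_ord]

/-- Fewer than `κ` points are bounded. -/
theorem bdd_of_lt (hκ : κ.IsRegular) {ι : Type u} (g : ι → κ.ord.ToType) (h : #ι < κ) :
    ∃ b, ∀ i, g i < b := by
  have hnc : ¬ IsCofinal (range g) := by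
    intro hcof
    have h1 := Order.cof_le hcof
    rw [cof_toType_eq hκ] at h1
    exact absurd (h1.trans_lt (mk_range_le.trans_lt h)) (lt_irrefl _)
  obtain ⟨x, hx⟩ := not_isCofinal_iff.1 hnc
  exact ⟨x, fun i => hx _ ⟨i, rfl⟩⟩

theorem mk_Iic_lt (hκ : κ.IsRegular) (a : κ.ord.ToType) : #(Iic a) < κ := by
  obtain ⟨b, hb⟩ := bdd_of_lt hκ (fun _ : PUnit.{u+1} => a)
    (by simpa using one_lt_aleph0.trans_le hκ.aleph0_le)
  have h1 : Iic a ⊆ Iio b := fun x hx => lt_of_le_of_lt hx (hb ⟨⟩)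
  exact (mk_le_mk_of_subset h1).trans_lt (mk_Iio_toType_ord_lt b)

theorem nonempty_toType (hκ : κ.IsRegular) : Nonempty κ.ord.ToType := by
  rw [← mk_ne_zero_iff, Cardinal.mk_toType, card_ord]
  exact hκ.pos.ne'

/-- Successor-dominating families: `κ⁺` functions increasing modulo bounded sets. -/
theorem exists_scale (hκ : κ.IsRegular) :
    ∃ h : (Order.succ κ).ord.ToType → κ.ord.ToType → κ.ord.ToType,
      ∀ i j, j < i → ∃ b, ∀ a, b ≤ a → h j a < h i a := by
  classical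
  haveI := nonempty_toType hκ
  obtain ⟨F, hF⟩ := exists_rec (Λ := (Order.succ κ).ord.ToType)
    (α := κ.ord.ToType → κ.ord.ToType)
    (fun i f x => ∀ j : Iio i, ∃ b, ∀ a, b ≤ a → f j a < x a) (by
      intro i f
      have hcard : #(Iio i) ≤ κ := by
        have := mk_Iio_toType_ord_lt i
        exact Order.lt_succ_iff.1 this
      have hle : #(Iio i) ≤ #(κ.ord.ToType) := by rwa [Cardinal.mk_toType, card_ord]
      obtain ⟨e⟩ := hle
      have hx : ∀ a : κ.ord.ToType, ∃ y, ∀ j : Iio i, e j ≤ a → f j a < y := by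
        intro a
        let ι := {j : Iio i // e j ≤ a}
        have hι : #ι < κ := by
          refine lt_of_le_of_lt ?_ (mk_Iic_lt hκ a)
          exact mk_le_of_injective (f := fun j : ι => (⟨e j.1, j.2⟩ : Iic a))
            (fun j j' hjj' => Subtype.ext (e.injective (congrArg Subtype.val hjj')))
        obtain ⟨y, hy⟩ := bdd_of_lt hκ (fun j : ι => f j.1 a) hι
        exact ⟨y, fun j hj => hy ⟨j, hj⟩⟩
      choose x hx using hx
      exact ⟨x, fun j => ⟨e j, fun a ha => hx a j ha⟩⟩)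
  exact ⟨F, fun i j hij => hF i ⟨j, hij⟩⟩

end Main

end Pool.Agent.H348R6.GV
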