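import Pool.Agent.H348R6.GV1

set_option autoImplicit false

namespace Pool.Agent.H348R6.GV

open Cardinal Set

universe u

variable {κ : Cardinal.{u}}

theorem hcU_toType (hκ : κ.IsRegular) (hω : ℵ₀ < κ) {ι : Type u} [Countable ι]
    (g : ι → κ.ord.ToType) : ∃ b, ∀ n, g n < b :=
  bdd_of_lt hκ g ((mk_le_aleph0 (α := ι)).trans_lt hω)

theorem hc_toType (hκ : κ.IsRegular) (hω : ℵ₀ < κ) (g : ℕ → κ.ord.ToType) :
    ∃ b, ∀ n, g n < b := by
  obtain ⟨b, hb⟩ := hcU_toType hκ hω (fun n : ULift.{u} ℕ => g n.down)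
  exact ⟨b, fun n => hb ⟨n⟩⟩

theorem hreg_toType (hκ : κ.IsRegular) (a : κ.ord.ToType)
    (g : Iic a × Iic a → κ.ord.ToType) : ∃ c, ∀ i, g i < c :=
  bdd_of_lt hκ g (by
    simp only [mk_prod, lift_id]
    exact mul_lt_of_lt hκ.aleph0_le (mk_Iic_lt hκ a) (mk_Iic_lt hκ a))

/-- `κ × κ` many disjoint nonthin subsets of a regular uncountable cardinal `κ`. -/
theorem exists_pieces (hκ : κ.IsRegular) (hω : ℵ₀ < κ) :
    ∃ t : κ.ord.ToType × κ.ord.ToType → Set κ.ord.ToType,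
      (∀ p, ¬ Thin (t p)) ∧ ∀ p q, p ≠ q → Disjoint (t p) (t q) := by
  classical
  have := nonempty_toType hκ
  obtain ⟨A, g, hg⟩ := exists_split (L := κ.ord.ToType)
    (fun g => hcU_toType hκ hω g) (hc_toType hκ hω) (hreg_toType hκ)
  let Γ : Set κ.ord.ToType := {γ | ¬ Thin {a ∈ A | g a = γ}}
  have hΓ : IsCofinal Γ := fun η => by
    obtain ⟨γ, h1, h2⟩ := hg η
    exact ⟨γ, h2, h1⟩
  have hΓc : κ ≤ #Γ := by
    have h1 := Order.cof_le hΓ
    rwa [cof_toType_eq hκ] at h1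
  have hprod : #(κ.ord.ToType × κ.ord.ToType) ≤ #Γ := by
    simp only [mk_prod, lift_id, Cardinal.mk_toType, card_ord]
    rw [mul_eq_self hκ.aleph0_le]
    exact hΓc
  obtain ⟨e⟩ := hprod
  refine ⟨fun p => {a ∈ A | g a = e p}, fun p => (e p).2, fun p q hpq => ?_⟩
  rw [Set.disjoint_left]
  rintro a ⟨_, h1⟩ ⟨_, h2⟩
  exact hpq (e.injective (Subtype.ext (h1.symm.trans h2)))

/-- The filter of the construction. -/
def theFilter (hκ : κ.IsRegular) {Λ : Type u} (h : Λ → κ.ord.ToType → κ.ord.ToType)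
    (t : κ.ord.ToType × κ.ord.ToType → Set κ.ord.ToType) (hω : ℵ₀ < κ) :
    Filter κ.ord.ToType where
  sets := {X | ∃ J : Set Λ, #J < κ ∧
    ∀ p : κ.ord.ToType × κ.ord.ToType, (∀ i ∈ J, p.2 ≠ h i p.1) → Thin (t p \ X)}
  univ_sets := ⟨∅, by simpa using hκ.pos, fun p _ => by simpa using thin_empty⟩
  sets_of_superset := by
    rintro X Y ⟨J, hJ, hX⟩ hXY
    exact ⟨J, hJ, fun p hp => (hX p hp).mono (sdiff_subset_sdiff_right hXY)⟩
  inter_sets := by
    rintro X Y ⟨J, hJ, hX⟩ ⟨K, hK, hY⟩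
    refine ⟨J ∪ K, ?_, fun p hp => ?_⟩
    · exact (mk_union_le J K).trans_lt (add_lt_of_lt hκ.aleph0_le hJ hK)
    · have h1 := hX p (fun i hi => hp i (Or.inl hi))
      have h2 := hY p (fun i hi => hp i (Or.inr hi))
      have h3 := thin_iUnion (ι := ULift.{u} Bool) (fun g => hcU_toType hκ hω g)
        (A := fun b => if b.down then t p \ X else t p \ Y)
        (fun b => by by_cases hb : b.down <;> simp [hb, h1, h2])
      refine h3.mono ?_
      rintro a ⟨ha, hXY⟩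
      by_cases haX : a ∈ X
      · exact mem_iUnion.2 ⟨⟨false⟩, by simpa using ⟨ha, fun haY => hXY ⟨haX, haY⟩⟩⟩
      · exact mem_iUnion.2 ⟨⟨true⟩, by simpa using ⟨ha, haX⟩⟩

theorem mem_theFilter (hκ : κ.IsRegular) {Λ : Type u} (h : Λ → κ.ord.ToType → κ.ord.ToType)
    (t : κ.ord.ToType × κ.ord.ToType → Set κ.ord.ToType) (hω : ℵ₀ < κ)
    (X : Set κ.ord.ToType) : X ∈ theFilter hκ h t hω ↔ ∃ J : Set Λ, #J < κ ∧
    ∀ p : κ.ord.ToType × κ.ord.ToType, (∀ i ∈ J, p.2 ≠ h i p.1) → Thin (t p \ X) := Iff.rfl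

/-- Main construction. -/
theorem main (hκ : κ.IsRegular) (hω : ℵ₀ < κ) :
    ∃ F : Filter κ.ord.ToType, F.NeBot ∧
      (∀ S : Set (Set κ.ord.ToType), #S < κ → (∀ s ∈ S, s ∈ F) → ⋂₀ S ∈ F) ∧
      (∀ C, IsClub C → C ∈ F) ∧
      ∃ A : (Order.succ κ).ord.ToType → Set κ.ord.ToType, (∀ i, A i ∈ F) ∧
        ∀ I : Set (Order.succ κ).ord.ToType, #I = κ → ⋂ i ∈ I, A i ∉ F := by
  classical
  obtain ⟨h, hh⟩ := exists_scale hκ
  obtain ⟨t, ht, htd⟩ := exists_pieces hκ hω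
  have := nonempty_toType hκ
  have hno : ∀ a : κ.ord.ToType, ∃ b, a < b := fun a => by
    obtain ⟨b, hb⟩ := hcU_toType hκ hω (fun _ : PUnit.{u+1} => a)
    exact ⟨b, hb ⟨⟩⟩
  refine ⟨theFilter hκ h t hω, ?_, ?_, ?_, ?_⟩
  · -- proper
    rw [Filter.neBot_iff]
    intro hbot
    have h0 : (∅ : Set κ.ord.ToType) ∈ theFilter hκ h t hω := by rw [hbot]; trivial
    obtain ⟨J, hJ, hJ2⟩ := (mem_theFilter _ _ _ _ _).1 h0
    obtain ⟨x⟩ := nonempty_toType hκ
    have hy : ∃ y : κ.ord.ToType, ∀ i ∈ J, y ≠ h i x := by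
      obtain ⟨y, hy⟩ := bdd_of_lt hκ (fun i : J => h i.1 x) hJ
      exact ⟨y, fun i hi => (hy ⟨i, hi⟩).ne'⟩
    obtain ⟨y, hy⟩ := hy
    have := hJ2 (x, y) hy
    rw [sdiff_empty] at this
    exact ht _ this
  · -- completeness
    intro S hS hSF
    choose! J hJ hJ2 using fun s (hs : s ∈ S) => (mem_theFilter _ _ _ _ _).1 (hSF s hs)
    refine (mem_theFilter _ _ _ _ _).2 ⟨⋃ s : S, J s.1, ?_, fun p hp => ?_⟩
    · exact (card_iUnion_lt_iff_forall_of_isRegular hκ hS).2 (fun s => hJ s.1 s.2)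
    · have h1 : ∀ s : S, Thin (t p \ s.1) := fun s =>
        hJ2 s.1 s.2 p (fun i hi => hp i (mem_iUnion.2 ⟨s, hi⟩))
      refine (thin_iUnion (fun g => bdd_of_lt hκ g hS) h1).mono ?_
      rintro a ⟨ha, haS⟩
      rw [mem_sInter] at haS
      push Not at haS
      obtain ⟨s, hs, has⟩ := haS
      exact mem_iUnion.2 ⟨⟨s, hs⟩, ha, has⟩
  · -- clubs
    intro C hC
    refine (mem_theFilter _ _ _ _ _).2 ⟨∅, by simpa using hκ.pos, fun p _ => ?_⟩
    exact (thin_compl_of_isClub hno hC).mono (fun a ha => ha.2)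
  · -- not Galvin
    refine ⟨fun i => (⋃ x, t (x, h i x))ᶜ, fun i => ?_, fun I hI hF => ?_⟩
    · refine (mem_theFilter _ _ _ _ _).2 ⟨{i}, ?_, fun p hp => ?_⟩
      · simpa using one_lt_aleph0.trans_le hκ.aleph0_le
      · have hp' := hp i rfl
        refine thin_empty.mono ?_
        rintro a ⟨ha, ha2⟩
        simp only [mem_compl_iff, not_not, mem_iUnion] at ha2
        obtain ⟨x, hx⟩ := ha2
        have hne : p ≠ (x, h i x) := by
          rintro rfl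
          exact hp' rfl
        exact absurd hx (Set.disjoint_left.1 (htd _ _ hne) ha)
    · obtain ⟨J, hJ, hJ2⟩ := (mem_theFilter _ _ _ _ _).1 hF
      have hex : ∃ i ∈ I, i ∉ J := by
        by_contra hcon
        push Not at hcon
        have := mk_le_mk_of_subset (s := I) (t := J) hcon
        rw [hI] at this
        exact absurd (this.trans_lt hJ) (lt_irrefl _)
      obtain ⟨i, hiI, hiJ⟩ := hex
      have hb : ∀ j : J, ∃ b, ∀ a, b ≤ a → h i a ≠ h j.1 a := by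
        rintro ⟨j, hj⟩
        have hij : i ≠ j := fun hij => hiJ (hij ▸ hj)
        rcases lt_or_gt_of_ne hij with hlt | hlt
        · obtain ⟨b, hb⟩ := hh j i hlt
          exact ⟨b, fun a ha => (hb a ha).ne⟩
        · obtain ⟨b, hb⟩ := hh i j hlt
          exact ⟨b, fun a ha => (hb a ha).ne'⟩
      choose b hb using hb
      obtain ⟨x, hx⟩ := bdd_of_lt hκ b hJ
      have h1 := hJ2 (x, h i x) (fun j hj => hb ⟨j, hj⟩ x (hx ⟨j, hj⟩).le)
      refine ht (x, h i x) (h1.mono ?_)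
      intro a ha
      refine ⟨ha, fun ha2 => ?_⟩
      have ha3 := mem_iInter₂.1 ha2 i hiI
      exact ha3 (mem_iUnion.2 ⟨x, ha⟩)

end Pool.Agent.H348R6.GV
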