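import Pool.Agent.H348R6.GV1

set_option autoImplicit false

namespace Pool.Agent.H348R6.GV

open Cardinal Set

universe u

variable {κ : Cardinal.{u}} {X : Type u}

/-- The points of `P_κ(X)` closed under a function. -/
def closedPts (κ : Cardinal.{u}) {X : Type u} (f : X → X) : Set {x : Set X // #x < κ} :=
  {x | ∀ a ∈ x.1, f a ∈ x.1}

/-- Closure sets belong to every fine normal ultrafilter. -/
theorem closedPts_mem (U : Ultrafilter {x : Set X // #x < κ})
    (fine : ∀ a : X, {x : {x : Set X // #x < κ} | a ∈ x.1} ∈ U)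
    (normal : ∀ f : {x : Set X // #x < κ} → X,
      {x : {x : Set X // #x < κ} | f x ∈ x.1} ∈ U →
        ∃ a : X, {x : {x : Set X // #x < κ} | f x = a} ∈ U)
    (f : X → X) : closedPts κ f ∈ U := by
  classical
  by_contra hcon
  have hc : (closedPts κ f)ᶜ ∈ U := Ultrafilter.compl_mem_iff_notMem.2 hcon
  obtain ⟨x0, hx0⟩ := U.neBot.nonempty_of_mem hc
  have hne : Nonempty X := by
    simp only [closedPts, mem_compl_iff, mem_ofPred_eq, not_forall] at hx0
    obtain ⟨a, _⟩ := hx0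
    exact ⟨a⟩
  have hex : ∀ x : {x : Set X // #x < κ}, ∃ a : X, x ∈ (closedPts κ f)ᶜ → a ∈ x.1 ∧ f a ∉ x.1 := by
    intro x
    by_cases hx : x ∈ (closedPts κ f)ᶜ
    · have hx' := hx
      simp only [closedPts, mem_compl_iff, mem_ofPred_eq, not_forall] at hx'
      obtain ⟨a, ha, hfa⟩ := hx'
      exact ⟨a, fun _ => ⟨ha, hfa⟩⟩
    · exact ⟨Classical.arbitrary X, fun h => absurd h hx⟩
  choose g hg using hex
  obtain ⟨a, ha⟩ := normal g (Filter.mem_of_superset hc (fun x hx => (hg x hx).1))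
  obtain ⟨x, ⟨hx1, hx2⟩, hx3⟩ := U.neBot.nonempty_of_mem
    (Filter.inter_mem (Filter.inter_mem hc ha) (fine (f a)))
  have h2 := (hg x hx1).2
  have h3 : g x = a := hx2
  rw [h3] at h2
  exact h2 hx3

/-- From an eventually different family of functions on `κ⁺`, many members of a fine normal
ultrafilter without large intersections. -/
theorem not_gal_of_family (hκ : ℵ₀ < κ) (hX : #X = Order.succ κ)
    (U : Ultrafilter {x : Set X // #x < κ})
    (fine : ∀ a : X, {x : {x : Set X // #x < κ} | a ∈ x.1} ∈ U)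
    (normal : ∀ f : {x : Set X // #x < κ} → X,
      {x : {x : Set X // #x < κ} | f x ∈ x.1} ∈ U →
        ∃ a : X, {x : {x : Set X // #x < κ} | f x = a} ∈ U)
    {Θ : Type u} (hΘ : κ < #Θ)
    (h : Θ → (Order.succ κ).ord.ToType → (Order.succ κ).ord.ToType)
    (hh : ∀ i j, i ≠ j → ∃ b, ∀ a, b ≤ a → h i a ≠ h j a) :
    ∃ S : Set (Set {x : Set X // #x < κ}), (∀ s ∈ S, s ∈ U) ∧ #S = #Θ ∧
      ∀ T ⊆ S, #T = κ → ⋂₀ T ∉ U := by
  classical
  have hreg : (Order.succ κ).IsRegular := isRegular_succ hκ.le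
  have hXY : #X = #((Order.succ κ).ord.ToType) := by
    rw [hX, Cardinal.mk_toType, card_ord]
  obtain ⟨e⟩ := Cardinal.eq.1 hXY
  let A : Θ → Set {x : Set X // #x < κ} := fun i =>
    closedPts κ (fun a => e.symm (h i (e a)))
  have hA : ∀ i, A i ∈ U := fun i => closedPts_mem U fine normal _
  -- key
  have key : ∀ I : Set Θ, #I = κ → ∀ B ∈ U, ∃ i ∈ I, ¬ B ⊆ A i := by
    intro I hI B hB
    by_contra hcon
    push Not at hcon
    have hpair : ∀ p : I × I, ∃ b, p.1.1 ≠ p.2.1 → ∀ a, b ≤ a → h p.1.1 a ≠ h p.2.1 a := by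
      rintro ⟨i, j⟩
      by_cases hij : i.1 = j.1
      · have := nonempty_toType hreg
        exact ⟨Classical.arbitrary _, fun h => absurd hij h⟩
      · obtain ⟨b, hb⟩ := hh i.1 j.1 hij
        exact ⟨b, fun _ => hb⟩
    choose b hb using hpair
    obtain ⟨β, hβ⟩ := bdd_of_lt hreg b (by
      simp only [mk_prod, lift_id, hI]
      rw [mul_eq_self hκ.le]
      exact Order.lt_succ κ)
    have hinj : ∀ i ∈ I, ∀ j ∈ I, h i β = h j β → i = j := by
      intro i hi j hj hij
      by_contra hne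
      exact hb (⟨i, hi⟩, ⟨j, hj⟩) hne β (hβ _).le hij
    obtain ⟨x, hxB, hxβ⟩ := U.neBot.nonempty_of_mem (Filter.inter_mem hB (fine (e.symm β)))
    have hmem : ∀ i ∈ I, e.symm (h i β) ∈ x.1 := by
      intro i hi
      have h1 : x ∈ A i := hcon i hi hxB
      have h2 := h1 (e.symm β) hxβ
      simpa using h2
    have hle : #I ≤ #x.1 := mk_le_of_injective
      (f := fun i : I => (⟨e.symm (h i.1 β), hmem i.1 i.2⟩ : x.1)) (by
        intro i j hij
        have h1 : e.symm (h i.1 β) = e.symm (h j.1 β) := congrArg Subtype.val hij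
        exact Subtype.ext (hinj i.1 i.2 j.1 j.2 (e.symm.injective h1)))
    rw [hI] at hle
    exact absurd (hle.trans_lt x.2) (lt_irrefl _)
  refine ⟨range A, ?_, ?_, ?_⟩
  · rintro _ ⟨i, rfl⟩
    exact hA i
  · apply le_antisymm mk_range_le
    by_contra hcon
    push Not at hcon
    have hfib : ∀ s : range A, #{i : Θ // rangeFactorization A i = s} ≤ κ := by
      rintro ⟨s, hs⟩
      by_contra hlt
      push Not at hlt
      have hex : ∃ I : Set Θ, I ⊆ {i | rangeFactorization A i = ⟨s, hs⟩} ∧ #I = κ :=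
        le_mk_iff_exists_subset.1 hlt.le
      obtain ⟨I, hI1, hI2⟩ := hex
      obtain ⟨j, hj⟩ := hs
      have hs' : s ∈ U := hj ▸ hA j
      obtain ⟨i, hi, hni⟩ := key I hI2 s hs'
      have h1 : A i = s := congrArg Subtype.val (hI1 hi)
      exact hni h1.ge
    have h1 : #Θ = Cardinal.sum (fun s : range A => #{i : Θ // rangeFactorization A i = s}) := by
      rw [← mk_sigma]
      exact (Cardinal.mk_congr (Equiv.sigmaFiberEquiv (rangeFactorization A))).symm
    have h2 : #Θ ≤ #(range A) * κ := by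
      rw [h1]
      refine (sum_le_sum _ (fun _ => κ) hfib).trans ?_
      simp
    exact absurd (h2.trans_lt (mul_lt_of_lt (hκ.le.trans hΘ.le) hcon hΘ)) (lt_irrefl _)
  · intro T hT hTκ hTU
    have hne : Nonempty Θ := by
      rw [← mk_ne_zero_iff]
      exact ((zero_le (a := κ)).trans_lt hΘ).ne'
    choose! i hi using fun t (ht : t ∈ T) => hT ht
    have hinj : Set.InjOn i T := by
      intro t ht t' ht' htt
      rw [← hi t ht, ← hi t' ht', htt]
    obtain ⟨j, ⟨t, ht, rfl⟩, hnj⟩ := key (i '' T)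
      (by rw [mk_image_eq_of_injOn _ _ hinj, hTκ]) _ hTU
    rw [hi t ht] at hnj
    exact hnj (sInter_subset_of_mem ht)

/-- The scale gives `κ⁺⁺` eventually different functions. -/
theorem family_scale (hκ : ℵ₀ < κ) :
    ∃ h : (Order.succ (Order.succ κ)).ord.ToType → (Order.succ κ).ord.ToType →
      (Order.succ κ).ord.ToType, ∀ i j, i ≠ j → ∃ b, ∀ a, b ≤ a → h i a ≠ h j a := by
  obtain ⟨h, hh⟩ := exists_scale (isRegular_succ hκ.le)
  refine ⟨h, fun i j hij => ?_⟩
  rcases lt_or_gt_of_ne hij with hlt | hlt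
  · obtain ⟨b, hb⟩ := hh j i hlt
    exact ⟨b, fun a ha => (hb a ha).ne⟩
  · obtain ⟨b, hb⟩ := hh i j hlt
    exact ⟨b, fun a ha => (hb a ha).ne'⟩

/-- If `2 ^ κ = κ⁺` there are `2 ^ κ⁺` eventually different functions. -/
theorem family_sets (hκ : ℵ₀ < κ) (hgch : (2 : Cardinal.{u}) ^ κ = Order.succ κ) :
    ∃ h : Set (Order.succ κ).ord.ToType → (Order.succ κ).ord.ToType →
      (Order.succ κ).ord.ToType, ∀ i j, i ≠ j → ∃ b, ∀ a, b ≤ a → h i a ≠ h j a := by
  classical
  have hreg : (Order.succ κ).IsRegular := isRegular_succ hκ.le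
  have hc : ∀ a : (Order.succ κ).ord.ToType,
      ∃ c : Set (Iic a) → (Order.succ κ).ord.ToType, Function.Injective c := by
    intro a
    have h1 : #(Set (Iic a)) ≤ #((Order.succ κ).ord.ToType) := by
      rw [mk_set, Cardinal.mk_toType, card_ord]
      exact (power_le_power_left two_ne_zero
        (Order.lt_succ_iff.1 (mk_Iic_lt hreg a))).trans_eq hgch
    obtain ⟨c⟩ := h1
    exact ⟨c, c.injective⟩
  choose c hc using hc
  refine ⟨fun E a => c a {b | b.1 ∈ E}, fun E E' hne => ?_⟩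
  have : ∃ b, ¬ (b ∈ E ↔ b ∈ E') := by
    by_contra hcon
    push Not at hcon
    exact hne (Set.ext hcon)
  obtain ⟨b, hb⟩ := this
  refine ⟨b, fun a hba heq => hb ?_⟩
  have h1 := hc a heq
  have h2 := Set.ext_iff.1 h1 ⟨b, hba⟩
  simpa using h2

end Pool.Agent.H348R6.GV
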