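import Pool.Agent.H348R6.GV3

set_option autoImplicit false

namespace Pool.Agent.H348R6.GV

open Cardinal Set

universe u

variable {L : Type u} [LinearOrder L] [WellFoundedLT L]

/-- A countably complete ultrafilter containing all final segments has a least unbounded
function. -/
theorem exists_least (U : Ultrafilter L)
    (hcc : ∀ A : ℕ → Set L, (∀ n, A n ∈ U) → ⋂ n, A n ∈ U)
    (hbd : ∀ β : L, {ν | β < ν} ∈ U) :
    ∃ h : L → L, (∀ β : L, {ν | β < h ν} ∈ U) ∧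
      ∀ g : L → L, {ν | g ν < h ν} ∈ U → ∃ β : L, {ν | g ν ≤ β} ∈ U := by
  classical
  let R : (L → L) → (L → L) → Prop := fun g h => {ν | g ν < h ν} ∈ U
  have hwf : WellFounded R := by
    rw [wellFounded_iff_isEmpty_descending_chain]
    refine ⟨fun ⟨f, hf⟩ => ?_⟩
    have h1 := hcc (fun n => {ν | f (n + 1) ν < f n ν}) hf
    obtain ⟨ν, hν⟩ := U.neBot.nonempty_of_mem h1
    have h2 : ∀ n, f (n + 1) ν < f n ν := fun n => mem_iInter.1 hν n
    exact (wellFounded_iff_isEmpty_descending_chain.1 (wellFounded_lt (α := L))).false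
      ⟨fun n => f n ν, h2⟩
  let P : Set (L → L) := {h | ∀ β : L, {ν | β < h ν} ∈ U}
  have hP : P.Nonempty := ⟨id, hbd⟩
  refine ⟨hwf.min P hP, hwf.min_mem P hP, fun g hg => ?_⟩
  by_contra hcon
  push Not at hcon
  refine hwf.not_lt_min P (x := g) ?_ hg
  intro β
  have h1 := Ultrafilter.compl_mem_iff_notMem.2 (hcon β)
  refine Filter.mem_of_superset h1 (fun ν hν => ?_)
  simpa using hν

end Pool.Agent.H348R6.GV

namespace Pool.Agent.H348R6.GV

open Cardinal Set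

universe u

variable {κ : Cardinal.{u}}

/-- Regular ultrafilters over `κ⁺` are not Galvin. -/
theorem not_gal_regular (hκ : ℵ₀ < κ) (U : Ultrafilter (Order.succ κ).ord.ToType)
    (hunif : ∀ A ∈ U, #A = Order.succ κ)
    (hcomp : ∀ S : Set (Set (Order.succ κ).ord.ToType), #S < κ → (∀ s ∈ S, s ∈ U) → ⋂₀ S ∈ U)
    (hreg : ∃ B : (Order.succ κ).ord.ToType → Set (Order.succ κ).ord.ToType,
      (∀ ξ, B ξ ∈ U) ∧ ∀ I : Set (Order.succ κ).ord.ToType, #I = κ → ⋂ ξ ∈ I, B ξ = ∅) :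
    ∃ A : (Order.succ (Order.succ κ)).ord.ToType → Set (Order.succ κ).ord.ToType,
      (∀ i, A i ∈ U) ∧ ∀ I : Set (Order.succ (Order.succ κ)).ord.ToType, #I = κ →
        ⋂ i ∈ I, A i ∉ U := by
  classical
  have hr : (Order.succ κ).IsRegular := isRegular_succ hκ.le
  have hbd : ∀ β : (Order.succ κ).ord.ToType, {ν | β < ν} ∈ U := by
    intro β
    by_contra hcon
    have h1 := Ultrafilter.compl_mem_iff_notMem.2 hcon
    have h2 := hunif _ h1
    have h3 : {ν : (Order.succ κ).ord.ToType | β < ν}ᶜ ⊆ Iic β := fun ν hν => by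
      simpa using hν
    have h4 := mk_le_mk_of_subset h3
    rw [h2] at h4
    exact absurd (h4.trans_lt (mk_Iic_lt hr β)) (lt_irrefl _)
  have hcc : ∀ A : ℕ → Set (Order.succ κ).ord.ToType, (∀ n, A n ∈ U) → ⋂ n, A n ∈ U := by
    intro A hA
    rw [← sInter_range]
    refine hcomp _ ?_ (by rintro _ ⟨n, rfl⟩; exact hA n)
    exact (le_aleph0_iff_set_countable.2 (countable_range A)).trans_lt hκ
  obtain ⟨h0, hh1, hh2⟩ := exists_least U hcc hbd
  obtain ⟨B, hB1, hB2⟩ := hreg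
  obtain ⟨f, hf⟩ := family_scale hκ
  let y : (Order.succ κ).ord.ToType → Set (Order.succ κ).ord.ToType :=
    fun ν => {ξ | ξ < h0 ν ∧ ν ∈ B ξ}
  have hy1 : ∀ ν, #(y ν) < κ := by
    intro ν
    by_contra hcon
    push Not at hcon
    obtain ⟨I, hI1, hI2⟩ := le_mk_iff_exists_subset.1 hcon
    have h1 : ν ∈ ⋂ ξ ∈ I, B ξ := mem_iInter₂.2 (fun ξ hξ => (hI1 hξ).2)
    rw [hB2 I hI2] at h1
    exact h1
  have hy2 : ∀ ξ, {ν | ξ ∈ y ν} ∈ U := fun ξ => Filter.inter_mem (hh1 ξ) (hB1 ξ)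
  refine ⟨fun i => {ν | ∀ ζ, ζ < h0 ν → ∃ β ∈ y ν, ζ < β ∧ f i β ∈ y ν}, fun i => ?_,
    fun I hI hcon => ?_⟩
  · by_contra hcon
    have hc := Ultrafilter.compl_mem_iff_notMem.2 hcon
    have hex : ∀ ν, ∃ ζ, ν ∈ {ν | ∀ ζ, ζ < h0 ν → ∃ β ∈ y ν, ζ < β ∧ f i β ∈ y ν}ᶜ →
        ζ < h0 ν ∧ ∀ β ∈ y ν, ζ < β → f i β ∉ y ν := by
      intro ν
      by_cases hν : ν ∈ {ν | ∀ ζ, ζ < h0 ν → ∃ β ∈ y ν, ζ < β ∧ f i β ∈ y ν}ᶜ
      · have hν' := hν
        simp only [mem_compl_iff, mem_ofPred_eq] at hν'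
        push Not at hν'
        obtain ⟨ζ, h1, h2⟩ := hν'
        exact ⟨ζ, fun _ => ⟨h1, h2⟩⟩
      · exact ⟨ν, fun h => absurd h hν⟩
    choose g hg using hex
    obtain ⟨β, hβ⟩ := hh2 g (Filter.mem_of_superset hc (fun ν hν => (hg ν hν).1))
    obtain ⟨γ, hγ⟩ := bdd_of_lt hr (fun _ : PUnit.{u+1} => β)
      (by simpa using one_lt_aleph0.trans_le hr.aleph0_le)
    obtain ⟨ν, ⟨⟨hν1, hν2⟩, hν3⟩, hν4⟩ := U.neBot.nonempty_of_mem
      (Filter.inter_mem (Filter.inter_mem (Filter.inter_mem hc hβ) (hy2 γ)) (hy2 (f i γ)))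
    exact (hg ν hν1).2 γ hν3 (lt_of_le_of_lt hν2 (hγ ⟨⟩)) hν4
  · have hpair : ∀ p : I × I, ∃ b, p.1.1 ≠ p.2.1 → ∀ a, b ≤ a → f p.1.1 a ≠ f p.2.1 a := by
      rintro ⟨i, j⟩
      by_cases hij : i.1 = j.1
      · have := nonempty_toType hr
        exact ⟨Classical.arbitrary _, fun h => absurd hij h⟩
      · obtain ⟨b, hb⟩ := hf i.1 j.1 hij
        exact ⟨b, fun _ => hb⟩
    choose b hb using hpair
    obtain ⟨β, hβ⟩ := bdd_of_lt hr b (by
      simp only [mk_prod, lift_id, hI]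
      rw [mul_eq_self hκ.le]
      exact Order.lt_succ κ)
    obtain ⟨ν, hν1, hν2⟩ := U.neBot.nonempty_of_mem (Filter.inter_mem hcon (hh1 β))
    have hex : ∀ i : I, ∃ β' ∈ y ν, β < β' ∧ f i.1 β' ∈ y ν :=
      fun i => (mem_iInter₂.1 hν1 i.1 i.2) β hν2
    choose c hc1 hc2 hc3 using hex
    have hinj : Function.Injective (fun i : I => ((⟨c i, hc1 i⟩, ⟨f i.1 (c i), hc3 i⟩) :
        y ν × y ν)) := by
      intro i j hij
      have h1 : c i = c j := congrArg (fun q : y ν × y ν => q.1.1) hij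
      have h2 : f i.1 (c i) = f j.1 (c j) := congrArg (fun q : y ν × y ν => q.2.1) hij
      by_contra hne
      have hne' : i.1 ≠ j.1 := fun h => hne (Subtype.ext h)
      rw [← h1] at h2
      exact hb (i, j) hne' (c i) ((hβ (i, j)).le.trans (hc2 i).le) h2
    have hle := mk_le_of_injective hinj
    rw [hI] at hle
    simp only [mk_prod, lift_id] at hle
    exact absurd (hle.trans_lt (mul_lt_of_lt hκ.le (hy1 ν) (hy1 ν))) (lt_irrefl _)

end Pool.Agent.H348R6.GV
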