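import Pool.Agent.H348R6.HLDefs

/-!
# Basic facts on trees of height `κ`
-/

universe u

open Cardinal Ordinal Set

namespace Pool.Agent.H348R6.HLT

variable {κ : Cardinal.{u}} {T : Set Node.{u}}

theorem le_def {s t : Node.{u}} : s ≤ t ↔ s.len ≤ t.len ∧ ∀ β < s.len, s.fn β = t.fn β := Iff.rfl

/-- The initial segment of length `α`. -/
noncomputable def cut (t : Node.{u}) (α : Ordinal.{u}) : Node.{u} where
  len := min t.len α
  fn β := if β < α then t.fn β else 0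
  supp β hβ := by
    by_cases h : β < α
    · rw [if_pos h]
      apply t.supp
      by_contra hc
      push Not at hc
      exact absurd (lt_min hc h) (not_lt.2 hβ)
    · rw [if_neg h]

theorem cut_len {t : Node.{u}} {α : Ordinal.{u}} (h : α ≤ t.len) : (cut t α).len = α :=
  min_eq_right h

theorem cut_fn {t : Node.{u}} {α β : Ordinal.{u}} (h : β < α) : (cut t α).fn β = t.fn β :=
  if_pos h

theorem cut_le (t : Node.{u}) (α : Ordinal.{u}) : cut t α ≤ t :=
  ⟨min_le_left _ _, fun _ hβ => cut_fn (hβ.trans_le (min_le_right _ _))⟩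

theorem le_cut {s t : Node.{u}} {α : Ordinal.{u}} (h : s ≤ t) (hs : s.len ≤ α) : s ≤ cut t α :=
  ⟨le_min h.1 hs, fun β hβ => by rw [cut_fn (hβ.trans_le hs)]; exact h.2 β hβ⟩

theorem le_of_len_le {r s t : Node.{u}} (hs : s ≤ t) (hr : r ≤ t) (h : s.len ≤ r.len) : s ≤ r :=
  ⟨h, fun β hβ => (hs.2 β hβ).trans (hr.2 β (hβ.trans_le h)).symm⟩

theorem eq_of_len_eq {r s t : Node.{u}} (hs : s ≤ t) (hr : r ≤ t) (h : s.len = r.len) : s = r :=
  le_antisymm (le_of_len_le hs hr h.le) (le_of_len_le hr hs h.ge)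

theorem cut_eq {s t : Node.{u}} (h : s ≤ t) : cut t s.len = s :=
  eq_of_len_eq (cut_le _ _) h (cut_len h.1)

theorem cut_mono {s t : Node.{u}} (h : s ≤ t) {α : Ordinal.{u}} (hα : α ≤ s.len) :
    cut s α = cut t α :=
  eq_of_len_eq ((cut_le _ _).trans h) (cut_le _ _) (by rw [cut_len hα, cut_len (hα.trans h.1)])

/-- The union of a chain of nodes with supremum of the lengths `γ`. -/
noncomputable def unionNode (b : Set Node.{u}) (γ : Ordinal.{u}) : Node.{u} := by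
  classical
  exact
  { len := γ
    fn := fun β => if h : β < γ ∧ ∃ x ∈ b, β < x.len then (Classical.choose h.2).fn β else 0
    supp := fun β hβ => dif_neg fun h => absurd h.1 (not_lt.2 hβ) }

theorem unionNode_fn {b : Set Node.{u}} (hb : IsChain (· ≤ ·) b) {γ : Ordinal.{u}} {x : Node.{u}}
    (hx : x ∈ b) (hxγ : x.len ≤ γ) {β : Ordinal.{u}} (hβ : β < x.len) :
    (unionNode b γ).fn β = x.fn β := by
  have h : β < γ ∧ ∃ x ∈ b, β < x.len := ⟨hβ.trans_le hxγ, x, hx, hβ⟩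
  have h1 : (unionNode b γ).fn β = (Classical.choose h.2).fn β := dif_pos h
  obtain ⟨h2, h3⟩ := Classical.choose_spec h.2
  rw [h1]
  rcases hb.total h2 hx with h4 | h4
  · exact h4.2 β h3
  · exact (h4.2 β hβ).symm

theorem le_unionNode {b : Set Node.{u}} (hb : IsChain (· ≤ ·) b) {γ : Ordinal.{u}} {x : Node.{u}}
    (hx : x ∈ b) (hxγ : x.len ≤ γ) : x ≤ unionNode b γ :=
  ⟨hxγ, fun _ hβ => (unionNode_fn hb hx hxγ hβ).symm⟩

/-- Closure under unions of chains and existence of immediate successors imply (2). -/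
theorem branch_of (hT : IsTree κ T)
    (hU : ∀ b ⊆ T, IsChain (· ≤ ·) b → ∀ γ < κ.ord, (∀ x ∈ b, x.len ≤ γ) →
      (∀ β < γ, ∃ x ∈ b, β < x.len) → unionNode b γ ∈ T)
    (hS : ∀ x ∈ T, ∃ s, ImmSucc T x s) :
    ∀ b ⊆ T, IsChain (· ≤ ·) b → (∀ t ∈ T, (∀ s ∈ b, s ≤ t ∨ t ≤ s) → t ∈ b) →
    ∀ α < κ.ord, ∃ t ∈ b, t.len = α := by
  intro b hbT hb hmax α hα
  by_contra hno
  push Not at hno
  have h1 : ∀ x ∈ b, x.len ≤ α := by
    intro x hx
    by_contra hc
    push Not at hc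
    refine hno (cut x α) (hmax _ (hT.down x (hbT hx) _ (cut_le _ _)) ?_) (cut_len hc.le)
    intro s hs
    rcases le_total s.len α with h | h
    · left
      rcases hb.total hs hx with h2 | h2
      · exact le_cut h2 h
      · exact absurd (h2.1.trans h) (not_le.2 hc)
    · right
      rcases hb.total hs hx with h2 | h2
      · refine le_of_len_le (cut_le _ _) h2 ?_
        rw [cut_len hc.le]
        exact h
      · exact (cut_le _ _).trans h2
  set S : Set Ordinal.{u} := {γ | ∀ x ∈ b, x.len ≤ γ} with hSdef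
  have hSne : S.Nonempty := ⟨α, h1⟩
  set γ := sInf S with hγ
  have hγS : γ ∈ S := csInf_mem hSne
  have hγα : γ ≤ α := csInf_le' h1
  have hγlt : γ < κ.ord := hγα.trans_lt hα
  have h2 : ∀ β < γ, ∃ x ∈ b, β < x.len := by
    intro β hβ
    by_contra hc
    push Not at hc
    exact absurd (csInf_le' (show β ∈ S from hc)) (not_le.2 hβ)
  have hy := hU b hbT hb γ hγlt hγS h2
  have hyb : unionNode b γ ∈ b := hmax _ hy fun s hs => Or.inl (le_unionNode hb hs (hγS s hs))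
  obtain ⟨s, hsT, hs1, hs2⟩ := hS _ hy
  have hsb : s ∈ b := hmax s hsT fun x hx => Or.inl ((le_unionNode hb hx (hγS x hx)).trans hs1)
  have h3 : s.len ≤ γ := hγS s hsb
  rw [hs2] at h3
  exact absurd h3 (not_le.2 (Order.lt_add_one_iff.2 le_rfl))

/-- Every chain is contained in a maximal one. -/
theorem exists_maxChain {b : Set Node.{u}} (hbT : b ⊆ T) (hb : IsChain (· ≤ ·) b) :
    ∃ M ⊆ T, b ⊆ M ∧ IsChain (· ≤ ·) M ∧ ∀ t ∈ T, (∀ s ∈ M, s ≤ t ∨ t ≤ s) → t ∈ M := by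
  obtain ⟨M, h1, h2⟩ := zorn_subset_nonempty {M : Set Node.{u} | M ⊆ T ∧ IsChain (· ≤ ·) M}
    (by
      intro C hC hCc hCn
      refine ⟨⋃₀ C, ⟨sUnion_subset fun M hM => (hC hM).1, ?_⟩, fun s hs => subset_sUnion_of_mem hs⟩
      intro x hx y hy hxy
      obtain ⟨M, hM, hxM⟩ := hx
      obtain ⟨M', hM', hyM⟩ := hy
      rcases hCc.total hM hM' with h | h
      · exact (hC hM').2 (h hxM) hyM hxy
      · exact (hC hM).2 hxM (h hyM) hxy) b ⟨hbT, hb⟩
  refine ⟨M, h2.prop.1, h1, h2.prop.2, fun t ht hcomp => ?_⟩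
  have h3 : insert t M ∈ {M : Set Node.{u} | M ⊆ T ∧ IsChain (· ≤ ·) M} := by
    refine ⟨insert_subset ht h2.prop.1, h2.prop.2.insert fun s hs _ => ?_⟩
    exact (hcomp s hs).symm
  exact h2.le_of_ge h3 (subset_insert _ _) (mem_insert _ _)

/-- Every chain of nodes of bounded length has an upper bound of every admissible length. -/
theorem exists_above (hT : IsRegularTree κ T) {b : Set Node.{u}} (hbT : b ⊆ T)
    (hb : IsChain (· ≤ ·) b) {γ : Ordinal.{u}} (hγ : γ < κ.ord) (hbγ : ∀ x ∈ b, x.len ≤ γ) :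
    ∃ y ∈ T, y.len = γ ∧ ∀ x ∈ b, x ≤ y := by
  obtain ⟨M, hMT, hbM, hM, hmax⟩ := exists_maxChain hbT hb
  obtain ⟨y, hy, hyl⟩ := hT.branch M hMT hM hmax γ hγ
  refine ⟨y, hMT hy, hyl, fun x hx => ?_⟩
  rcases hM.total (hbM hx) hy with h | h
  · exact h
  · exact le_of_eq (le_antisymm (le_of_len_le le_rfl h (by rw [hyl]; exact hbγ x hx)) h)

theorem exists_ext (hT : IsRegularTree κ T) {t : Node.{u}} (ht : t ∈ T) {γ : Ordinal.{u}}
    (hγ : γ < κ.ord) (htγ : t.len ≤ γ) : ∃ y ∈ T, y.len = γ ∧ t ≤ y := by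
  obtain ⟨y, h1, h2, h3⟩ := exists_above hT (singleton_subset_iff.2 ht) (IsChain.singleton) hγ
    (by rintro x rfl; exact htγ)
  exact ⟨y, h1, h2, h3 t rfl⟩

theorem union_mem (hT : IsRegularTree κ T) {b : Set Node.{u}} (hbT : b ⊆ T)
    (hb : IsChain (· ≤ ·) b) {γ : Ordinal.{u}} (hγ : γ < κ.ord) (hbγ : ∀ x ∈ b, x.len ≤ γ)
    (h : ∀ β < γ, ∃ x ∈ b, β < x.len) : unionNode b γ ∈ T := by
  obtain ⟨y, h1, h2, h3⟩ := exists_above hT hbT hb hγ hbγ
  have : unionNode b γ = y := by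
    refine le_antisymm (le_def.2 ⟨h2.ge, fun β hβ => ?_⟩) (le_def.2 ⟨h2.le, fun β hβ => ?_⟩)
    · obtain ⟨x, hx, hxβ⟩ := h β hβ
      rw [unionNode_fn hb hx (hbγ x hx) hxβ]
      exact (h3 x hx).2 β hxβ
    · obtain ⟨x, hx, hxβ⟩ := h β (h2 ▸ hβ)
      rw [unionNode_fn hb hx (hbγ x hx) hxβ]
      exact ((h3 x hx).2 β hxβ).symm
  rw [this]
  exact h1

theorem add_one_lt_ord (hκ : ℵ₀ ≤ κ) {α : Ordinal.{u}} (hα : α < κ.ord) : α + 1 < κ.ord :=
  (Cardinal.isSuccLimit_ord hκ).add_one_lt hα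

theorem exists_immSucc (hκ : ℵ₀ ≤ κ) (hT : IsRegularTree κ T) {t : Node.{u}} (ht : t ∈ T) :
    ∃ s, ImmSucc T t s := by
  obtain ⟨y, h1, h2, h3⟩ := exists_ext hT ht (γ := t.len + 1)
    (add_one_lt_ord hκ (hT.len_lt t ht)) (Order.lt_add_one_iff.2 le_rfl).le
  exact ⟨y, h1, h3, h2⟩

/-- Appending one value. -/
noncomputable def snoc (t : Node.{u}) (v : Ordinal.{u}) : Node.{u} where
  len := t.len + 1
  fn β := if β = t.len then v else t.fn β
  supp β hβ := by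
    have h : t.len < β := (Order.lt_add_one_iff.2 le_rfl).trans_le hβ
    rw [if_neg h.ne', t.supp β h.le]

theorem le_snoc (t : Node.{u}) (v : Ordinal.{u}) : t ≤ snoc t v :=
  ⟨(Order.lt_add_one_iff.2 le_rfl).le, fun _ hβ => (if_neg hβ.ne).symm⟩

@[simp] theorem snoc_len (t : Node.{u}) (v : Ordinal.{u}) : (snoc t v).len = t.len + 1 := rfl

@[simp] theorem snoc_fn (t : Node.{u}) (v : Ordinal.{u}) : (snoc t v).fn t.len = v := if_pos rfl

theorem snoc_fn_ne (t : Node.{u}) (v : Ordinal.{u}) {β : Ordinal.{u}} (h : β ≠ t.len) :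
    (snoc t v).fn β = t.fn β := if_neg h

end Pool.Agent.H348R6.HLT
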