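import Mathlib

/-!
# Trees of height `κ` and the Halpern–Läuchli property `HL (d, σ, κ)`: definitions
-/

universe u

open Cardinal Ordinal Set

namespace Pool.Agent.H348R6.HLT

/-- A node: a function from the ordinal `len` to the ordinals.  It is represented by a total
function which vanishes from `len` on. -/
@[ext] structure Node : Type (u + 1) where
  /-- the domain of the function -/
  len : Ordinal.{u}
  /-- the values -/
  fn : Ordinal.{u} → Ordinal.{u}
  /-- the values outside of the domain are irrelevant -/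
  supp : ∀ β, len ≤ β → fn β = 0

/-- `s ≤ t`: `s` is an initial segment of `t`. -/
instance : PartialOrder Node.{u} where
  le s t := s.len ≤ t.len ∧ ∀ β < s.len, s.fn β = t.fn β
  le_refl s := ⟨le_rfl, fun _ _ => rfl⟩
  le_trans r s t h h' :=
    ⟨h.1.trans h'.1, fun β hβ => (h.2 β hβ).trans (h'.2 β (hβ.trans_le h.1))⟩
  le_antisymm s t h h' := by
    have hl : s.len = t.len := le_antisymm h.1 h'.1
    refine Node.ext hl ?_
    funext β
    rcases lt_or_ge β s.len with hβ | hβ
    · exact h.2 β hβ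
    · rw [s.supp β hβ, t.supp β (hl ▸ hβ)]

/-- `T ⊆ ^{<κ}κ` is closed under initial segments. -/
structure IsTree (κ : Cardinal.{u}) (T : Set Node.{u}) : Prop where
  len_lt : ∀ t ∈ T, t.len < κ.ord
  val_lt : ∀ t ∈ T, ∀ β < t.len, t.fn β < κ.ord
  down : ∀ t ∈ T, ∀ s, s ≤ t → s ∈ T

/-- The level `T(α)`. -/
def level (T : Set Node.{u}) (α : Ordinal.{u}) : Set Node.{u} := {t | t ∈ T ∧ t.len = α}

/-- `s` is an immediate successor of `t` in `T`. -/
def ImmSucc (T : Set Node.{u}) (t s : Node.{u}) : Prop := s ∈ T ∧ t ≤ s ∧ s.len = t.len + 1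

/-- Regular `κ`-trees: (1) the height is `κ` and all levels have fewer than `κ` elements, (2) every
maximal branch (maximal chain) has length `κ`, (3) every node has two incomparable extensions. -/
structure IsRegularTree (κ : Cardinal.{u}) (T : Set Node.{u}) : Prop extends IsTree κ T where
  level_nonempty : ∀ α < κ.ord, (level T α).Nonempty
  level_small : ∀ α < κ.ord, #(level T α) < Cardinal.lift.{u + 1} κ
  branch : ∀ b ⊆ T, IsChain (· ≤ ·) b → (∀ t ∈ T, (∀ s ∈ b, s ≤ t ∨ t ≤ s) → t ∈ b) →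
    ∀ α < κ.ord, ∃ t ∈ b, t.len = α
  split : ∀ t ∈ T, ∃ s₁ ∈ T, ∃ s₂ ∈ T, t ≤ s₁ ∧ t ≤ s₂ ∧ ¬ s₁ ≤ s₂ ∧ ¬ s₂ ≤ s₁

/-- `T'` is a strong subtree of `T` witnessed by `A`. -/
structure IsStrongSubtree (κ : Cardinal.{u}) (T : Set Node.{u}) (A : Set Ordinal.{u})
    (T' : Set Node.{u}) : Prop extends IsRegularTree κ T' where
  sub : T' ⊆ T
  of_mem : ∀ t ∈ T', t.len ∈ A → ∀ s, ImmSucc T t s → s ∈ T'
  of_not_mem : ∀ t ∈ T', t.len ∉ A → ∃! s, ImmSucc T' t s

/-- `A` is a cofinal subset of `κ`. -/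
def Cofinal (κ : Cardinal.{u}) (A : Set Ordinal.{u}) : Prop :=
  (∀ α ∈ A, α < κ.ord) ∧ ∀ β < κ.ord, ∃ α ∈ A, β ≤ α

/-- The statement `HL (d, σ, κ)`: for all regular `κ`-trees `T i` (`i < d`) and every colouring of
their level product with `σ` colours there are a cofinal `A ⊆ κ` and strong subtrees `T' i` of
`T i`, all witnessed by `A`, such that the colouring is constant on the tuples of nodes of the
`T' i` of the same length `α ∈ A`.  (The colouring is defined on all tuples; its values outside of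
the level product play no role.) -/
def HL (d : ℕ) (σ κ : Cardinal.{u}) : Prop :=
  ∀ T : Fin d → Set Node.{u}, (∀ i, IsRegularTree κ (T i)) →
    ∀ c : (Fin d → Node.{u}) → Ordinal.{u}, (∀ x, c x < σ.ord) →
      ∃ A, Cofinal κ A ∧ ∃ T' : Fin d → Set Node.{u},
        (∀ i, IsStrongSubtree κ (T i) A (T' i)) ∧
        ∃ j, ∀ α ∈ A, ∀ x : Fin d → Node.{u}, (∀ i, x i ∈ level (T' i) α) → c x = j

end Pool.Agent.H348R6.HLT
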