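import Pool.Agent.H348R6.HLBasic

/-!
# Failure of `HL (1, 2, κ)` at singular cardinals
-/

universe u

open Cardinal Ordinal Set

namespace Pool.Agent.H348R6.HLT

theorem bdd_lift {μ : Cardinal.{u}} (hμ : μ.IsRegular) {β : Type (u + 1)} (f : β → Ordinal.{u})
    (hβ : #β < Cardinal.lift.{u + 1} μ) (hf : ∀ i, f i < μ.ord) : ∃ γ < μ.ord, ∀ i, f i ≤ γ := by
  refine ⟨⨆ i, f i, ?_, fun i => ?_⟩
  · apply Ordinal.lift_iSup_lt_of_lt_cof _ hf
    rw [← Ordinal.lift_cof, hμ.cof_ord]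
    rw [Cardinal.lift_id'.{u, u + 1}]
    exact hβ
  · exact le_ciSup (f := f) ⟨μ.ord, by rintro _ ⟨i, rfl⟩; exact (hf i).le⟩ i

theorem exists_seq (κ : Cardinal.{u}) : ∃ b : Ordinal.{u} → Ordinal.{u},
    (∀ ξ < κ.ord.cof.ord, b ξ < κ.ord) ∧
    (∀ ξ < κ.ord.cof.ord, ∀ η < κ.ord.cof.ord, ξ < η → b ξ < b η) ∧
    ∀ β < κ.ord, ∃ ξ < κ.ord.cof.ord, β ≤ b ξ := by
  classical
  obtain ⟨f, hf⟩ := exists_fundamental_sequence κ.ord
  refine ⟨fun ξ => if h : ξ < κ.ord.cof.ord then f ξ h else 0, ?_, ?_, ?_⟩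
  · intro ξ hξ
    simp only [dif_pos hξ]
    exact hf.lt hξ
  · intro ξ hξ η hη h
    simp only [dif_pos hξ, dif_pos hη]
    exact hf.strict_mono hξ hη h
  · intro β hβ
    have h := hf.blsub_eq
    rw [← h, lt_blsub_iff] at hβ
    obtain ⟨ξ, hξ, h2⟩ := hβ
    exact ⟨ξ, hξ, by simpa only [dif_pos hξ] using h2⟩

theorem mod_two_ne (r : Ordinal.{u}) : r % 2 ≠ (r + 1) % 2 := by
  have h2 : (2 : Ordinal.{u}) ≠ 0 := two_ne_zero
  have h := Ordinal.mod_lt r h2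
  have hd := Ordinal.div_add_mod r 2
  have h3 : r % 2 = 0 ∨ r % 2 = 1 := by
    rcases lt_or_ge (r % 2) 1 with h4 | h4
    · left; exact Ordinal.lt_one_iff_zero.1 h4
    · right
      refine le_antisymm ?_ h4
      have h5 : r % 2 < 1 + 1 := h.trans_eq one_add_one_eq_two.symm
      exact Order.lt_add_one_iff.1 h5
  rcases h3 with h3 | h3
  · rw [h3]
    rw [h3, add_zero] at hd
    rw [← hd, Ordinal.mul_add_mod_self, Ordinal.mod_eq_of_lt one_lt_two]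
    exact zero_ne_one
  · rw [h3]
    rw [h3] at hd
    rw [← hd, add_assoc, one_add_one_eq_two, ← mul_add_one, Ordinal.mul_mod]
    exact one_ne_zero

/-- The tree: sequences of length less than `κ` with values less than `μ` which vanish outside of
the levels `b ξ`, `ξ < μ`. -/
def tree (κ : Cardinal.{u}) (μ : Ordinal.{u}) (b : Ordinal.{u} → Ordinal.{u}) : Set Node.{u} :=
  {t | t.len < κ.ord ∧ ∀ β, t.fn β ≠ 0 → ∃ ξ < μ, β = b ξ ∧ t.fn β < μ}

/-- Padding with zeros. -/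
def pad (t : Node.{u}) (α : Ordinal.{u}) (h : t.len ≤ α) : Node.{u} :=
  ⟨α, t.fn, fun β hβ => t.supp β (h.trans hβ)⟩

theorem le_pad (t : Node.{u}) (α : Ordinal.{u}) (h : t.len ≤ α) : t ≤ pad t α h :=
  ⟨h, fun _ _ => rfl⟩

section

variable {κ : Cardinal.{u}} {b : Ordinal.{u} → Ordinal.{u}} {μ : Ordinal.{u}}

theorem snoc_mem_tree {t : Node.{u}} (ht : t ∈ tree κ μ b) {ξ : Ordinal.{u}} (hξ : ξ < μ)
    (hl : t.len = b ξ) (hlt : t.len + 1 < κ.ord) {i : Ordinal.{u}} (hi : i < μ) :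
    snoc t i ∈ tree κ μ b := by
  refine ⟨hlt, fun β hβ => ?_⟩
  rcases eq_or_ne β t.len with rfl | h
  · exact ⟨ξ, hξ, hl, by rw [snoc_fn]; exact hi⟩
  · rw [snoc_fn_ne _ _ h] at hβ ⊢
    exact ht.2 β hβ

theorem tree_isTree (hμκ : μ ≤ κ.ord) : IsTree κ (tree κ μ b) where
  len_lt t ht := ht.1
  val_lt t ht β hβ := by
    rcases eq_or_ne (t.fn β) 0 with h | h
    · rw [h]
      exact lt_of_le_of_lt (by simp) ht.1
    · obtain ⟨ξ, _, _, h2⟩ := ht.2 β h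
      exact h2.trans_le hμκ
  down t ht s hs := by
    refine ⟨hs.1.trans_lt ht.1, fun β hβ => ?_⟩
    have h1 : β < s.len := by
      by_contra hc
      exact hβ (s.supp β (not_lt.1 hc))
    rw [hs.2 β h1] at hβ ⊢
    exact ht.2 β hβ

theorem tree_regular (hκ : ℵ₀ ≤ κ) (h2 : (2 : Cardinal.{u}) ^ κ.ord.cof < κ)
    (hb1 : ∀ ξ < κ.ord.cof.ord, b ξ < κ.ord)
    (hb3 : ∀ β < κ.ord, ∃ ξ < κ.ord.cof.ord, β ≤ b ξ) :
    IsRegularTree κ (tree κ κ.ord.cof.ord b) := by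
  have hμ0 : ℵ₀ ≤ κ.ord.cof := (Cardinal.isRegular_cof (Cardinal.isSuccLimit_ord hκ)).aleph0_le
  have hμκ : κ.ord.cof.ord ≤ κ.ord := by
    apply Cardinal.ord_le_ord.2
    simpa using Ordinal.cof_le_card κ.ord
  have h1μ : (1 : Ordinal.{u}) < κ.ord.cof.ord := by
    have h0 : (0 : Ordinal.{u}) < κ.ord.cof.ord := by
      rw [Cardinal.lt_ord, Ordinal.card_zero]; exact Cardinal.aleph0_pos.trans_le hμ0
    have := (Cardinal.isSuccLimit_ord hμ0).add_one_lt h0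
    simpa using this
  have h0μ : (0 : Ordinal.{u}) < κ.ord.cof.ord := zero_lt_one.trans h1μ
  have hT : IsTree κ (tree κ κ.ord.cof.ord b) := tree_isTree hμκ
  refine { toIsTree := hT, level_nonempty := ?_, level_small := ?_, branch := ?_, split := ?_ }
  · intro α hα
    exact ⟨⟨α, fun _ => 0, fun _ _ => rfl⟩, ⟨hα, fun β hβ => absurd rfl hβ⟩, rfl⟩
  · intro α _
    have hinj : #(level (tree κ κ.ord.cof.ord b) α) ≤
        #(Iio κ.ord.cof.ord → Iio κ.ord.cof.ord) := by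
      refine Cardinal.mk_le_of_injective
        (f := fun t : level (tree κ κ.ord.cof.ord b) α => fun ξ : Iio κ.ord.cof.ord =>
          (⟨t.1.fn (b ξ.1), ?_⟩ : Iio κ.ord.cof.ord)) ?_
      · rcases eq_or_ne (t.1.fn (b ξ.1)) 0 with h | h
        · show t.1.fn (b ξ.1) < _
          rw [h]; exact h0μ
        · obtain ⟨_, _, _, h3⟩ := t.2.1.2 _ h
          exact h3
      · intro s t hst
        apply Subtype.ext
        refine Node.ext (s.2.2.trans t.2.2.symm) ?_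
        funext β
        by_cases hβ : ∃ ξ < κ.ord.cof.ord, β = b ξ
        · obtain ⟨ξ, hξ, rfl⟩ := hβ
          have := congrFun hst ⟨ξ, hξ⟩
          exact congrArg Subtype.val this
        · have h5 : s.1.fn β = 0 := by
            by_contra hc
            obtain ⟨ξ, hξ, h6, _⟩ := s.2.1.2 β hc
            exact hβ ⟨ξ, hξ, h6⟩
          have h7 : t.1.fn β = 0 := by
            by_contra hc
            obtain ⟨ξ, hξ, h6, _⟩ := t.2.1.2 β hc
            exact hβ ⟨ξ, hξ, h6⟩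
          rw [h5, h7]
    refine hinj.trans_lt ?_
    rw [← Cardinal.power_def, Cardinal.mk_Iio_ordinal, Cardinal.card_ord, ← Cardinal.lift_power,
      Cardinal.lift_lt, Cardinal.power_self_eq hμ0]
    exact h2
  · refine branch_of hT ?_ ?_
    · intro c hc hch γ hγ hcγ hcof
      refine ⟨hγ, fun β hβ => ?_⟩
      have hβγ : β < γ := by
        by_contra hcon
        exact hβ ((unionNode c γ).supp β (not_lt.1 hcon))
      obtain ⟨x, hx, hxβ⟩ := hcof β hβγ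
      rw [unionNode_fn hch hx (hcγ x hx) hxβ] at hβ ⊢
      exact (hc hx).2 β hβ
    · intro x hx
      refine ⟨snoc x 0, ⟨add_one_lt_ord hκ hx.1, fun β hβ => ?_⟩, le_snoc _ _, rfl⟩
      rcases eq_or_ne β x.len with rfl | h
      · exact absurd (snoc_fn x 0) hβ
      · rw [snoc_fn_ne _ _ h] at hβ ⊢
        exact hx.2 β hβ
  · intro t ht
    obtain ⟨ξ, hξ, hle⟩ := hb3 t.len ht.1
    have hp : pad t (b ξ) hle ∈ tree κ κ.ord.cof.ord b := ⟨hb1 ξ hξ, fun β hβ => ht.2 β hβ⟩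
    have hlt : (pad t (b ξ) hle).len + 1 < κ.ord := add_one_lt_ord hκ (hb1 ξ hξ)
    refine ⟨snoc (pad t (b ξ) hle) 0, snoc_mem_tree hp hξ rfl hlt h0μ,
      snoc (pad t (b ξ) hle) 1, snoc_mem_tree hp hξ rfl hlt h1μ,
      (le_pad _ _ _).trans (le_snoc _ _), (le_pad _ _ _).trans (le_snoc _ _), ?_, ?_⟩
    · intro h
      have := h.2 (b ξ) (Order.lt_add_one_iff.2 le_rfl)
      have e0 : (snoc (pad t (b ξ) hle) 0).fn (b ξ) = 0 := snoc_fn _ _
      have e1 : (snoc (pad t (b ξ) hle) 1).fn (b ξ) = 1 := snoc_fn _ _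
      rw [e0, e1] at this
      exact zero_ne_one this
    · intro h
      have := h.2 (b ξ) (Order.lt_add_one_iff.2 le_rfl)
      have e0 : (snoc (pad t (b ξ) hle) 0).fn (b ξ) = 0 := snoc_fn _ _
      have e1 : (snoc (pad t (b ξ) hle) 1).fn (b ξ) = 1 := snoc_fn _ _
      rw [e0, e1] at this
      exact one_ne_zero this

end

/-- The index of a level. -/
noncomputable def idx (b : Ordinal.{u} → Ordinal.{u}) (α : Ordinal.{u}) : Ordinal.{u} :=
  sInf {ξ | α ≤ b ξ}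

/-- The colour of a node: the parity of its first value, on the levels `b ξ`, which is at least the
index of the length of the node. -/
noncomputable def col (μ : Ordinal.{u}) (b : Ordinal.{u} → Ordinal.{u}) (x : Node.{u}) :
    Ordinal.{u} := by
  classical
  exact
    if {ξ | ξ < μ ∧ b ξ < x.len ∧ idx b x.len ≤ x.fn (b ξ)}.Nonempty then
      x.fn (b (sInf {ξ | ξ < μ ∧ b ξ < x.len ∧ idx b x.len ≤ x.fn (b ξ)})) % 2
    else 0

theorem col_lt (μ : Ordinal.{u}) (b : Ordinal.{u} → Ordinal.{u}) (x : Node.{u}) :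
    col μ b x < 2 := by
  unfold col
  split_ifs with h
  · exact Ordinal.mod_lt _ two_ne_zero
  · exact zero_lt_two

theorem exists_cof (κ : Cardinal.{u}) (hκ : ℵ₀ ≤ κ) : κ.ord.cof.IsRegular :=
  Cardinal.isRegular_cof (Cardinal.isSuccLimit_ord hκ)

/-- Two incomparable nodes of a tree branch at a node of the tree. -/
theorem exists_splitting {κ : Cardinal.{u}} {T : Set Node.{u}} (hT : IsTree κ T)
    {s₁ s₂ : Node.{u}} (hs₁ : s₁ ∈ T) (hs₂ : s₂ ∈ T) (h12 : ¬ s₁ ≤ s₂) (h21 : ¬ s₂ ≤ s₁) :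
    ∃ t ∈ T, t ≤ s₁ ∧ t ≤ s₂ ∧ s₁.fn t.len ≠ s₂.fn t.len ∧ t.len < s₁.len ∧ t.len < s₂.len ∧
      ∃ u₁ u₂, ImmSucc T t u₁ ∧ ImmSucc T t u₂ ∧ u₁ ≠ u₂ := by
  have hex : {β | β < s₁.len ∧ β < s₂.len ∧ s₁.fn β ≠ s₂.fn β}.Nonempty := by
    by_contra hc
    rw [Set.not_nonempty_iff_eq_empty] at hc
    have hc' : ∀ β, β < s₁.len → β < s₂.len → s₁.fn β = s₂.fn β := by
      intro β h1 h2
      by_contra h3
      have : β ∈ ({β | β < s₁.len ∧ β < s₂.len ∧ s₁.fn β ≠ s₂.fn β} : Set Ordinal.{u}) :=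
        ⟨h1, h2, h3⟩
      rw [hc] at this
      exact this
    rcases le_total s₁.len s₂.len with h | h
    · exact h12 ⟨h, fun β hβ => hc' β hβ (hβ.trans_le h)⟩
    · exact h21 ⟨h, fun β hβ => (hc' β (hβ.trans_le h) hβ).symm⟩
  obtain ⟨δ, ⟨hδ1, hδ2, hδne⟩, hmin⟩ :=
    WellFounded.has_min (wellFounded_lt (α := Ordinal.{u})) _ hex
  have hagree : ∀ β < δ, s₁.fn β = s₂.fn β := by
    intro β hβ
    by_contra h3
    exact hmin β ⟨hβ.trans hδ1, hβ.trans hδ2, h3⟩ hβ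
  have hlt : δ < δ + 1 := Order.lt_add_one_iff.2 le_rfl
  have hd1 : δ + 1 ≤ s₁.len := Order.add_one_le_of_lt hδ1
  have hd2 : δ + 1 ≤ s₂.len := Order.add_one_le_of_lt hδ2
  have htl : (cut s₁ δ).len = δ := cut_len hδ1.le
  have ht2 : cut s₁ δ ≤ s₂ := by
    refine ⟨htl.le.trans hδ2.le, fun β hβ => ?_⟩
    rw [htl] at hβ
    rw [cut_fn hβ, hagree β hβ]
  refine ⟨cut s₁ δ, hT.down _ hs₁ _ (cut_le _ _), cut_le _ _, ht2, ?_, ?_, ?_,
    cut s₁ (δ + 1), cut s₂ (δ + 1), ⟨hT.down _ hs₁ _ (cut_le _ _), ?_, ?_⟩,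
    ⟨hT.down _ hs₂ _ (cut_le _ _), ?_, ?_⟩, ?_⟩
  · rw [htl]; exact hδne
  · rw [htl]; exact hδ1
  · rw [htl]; exact hδ2
  · exact le_cut (cut_le _ _) (htl.le.trans hlt.le)
  · rw [cut_len hd1, htl]
  · exact le_cut ht2 (htl.le.trans hlt.le)
  · rw [cut_len hd2, htl]
  · intro h
    apply hδne
    rw [← cut_fn (t := s₁) hlt, h, cut_fn hlt]

/-- In a strong subtree the level of a splitting node belongs to the set of levels. -/
theorem len_mem_of_split {κ : Cardinal.{u}} {T T' : Set Node.{u}} {A : Set Ordinal.{u}}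
    (h : IsStrongSubtree κ T A T') {t u₁ u₂ : Node.{u}} (ht : t ∈ T') (h1 : ImmSucc T' t u₁)
    (h2 : ImmSucc T' t u₂) (hne : u₁ ≠ u₂) : t.len ∈ A := by
  by_contra hA
  obtain ⟨w, _, hw⟩ := h.of_not_mem t ht hA
  exact hne ((hw u₁ h1).trans (hw u₂ h2).symm)

theorem ord_pos' {κ : Cardinal.{u}} (hκ : ℵ₀ ≤ κ) : (0 : Ordinal.{u}) < κ.ord := by
  rw [Cardinal.lt_ord, Ordinal.card_zero]; exact Cardinal.aleph0_pos.trans_le hκ

theorem not_HL_singular {κ : Cardinal.{u}} (hκ : ℵ₀ ≤ κ) (h2 : (2 : Cardinal.{u}) ^ κ.ord.cof < κ)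
    {d : ℕ} (hd : 0 < d) {σ : Cardinal.{u}} (hσ : 2 ≤ σ) : ¬ HL d σ κ := by
  classical
  intro H
  obtain ⟨b, hb1, hb2, hb3⟩ := exists_seq κ
  have hμr : κ.ord.cof.IsRegular := Cardinal.isRegular_cof (Cardinal.isSuccLimit_ord hκ)
  have hμ0 : ℵ₀ ≤ κ.ord.cof := hμr.aleph0_le
  have hT := tree_regular hκ h2 hb1 hb3
  have hσ2 : (2 : Ordinal.{u}) ≤ σ.ord := by
    have h3 := Cardinal.ord_le_ord.2 hσ
    have h4 : (2 : Cardinal.{u}).ord = 2 := by simp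
    rwa [h4] at h3
  obtain ⟨A, hA, T', hT', j, hj⟩ := H (fun _ => tree κ κ.ord.cof.ord b) (fun _ => hT)
    (fun x => col κ.ord.cof.ord b (x ⟨0, hd⟩)) (fun x => (col_lt _ _ _).trans_le hσ2)
  have hR : IsRegularTree κ (T' ⟨0, hd⟩) := (hT' _).toIsRegularTree
  obtain ⟨t0, ht0⟩ := hR.level_nonempty 0 (ord_pos' hκ)
  obtain ⟨s₁, hs₁, s₂, hs₂, -, -, h12, h21⟩ := hR.split t0 ht0.1
  obtain ⟨t, ht, hts1, hts2, hne, -, -, u₁, u₂, hu₁, hu₂, hu⟩ :=
    exists_splitting hR.toIsTree hs₁ hs₂ h12 h21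
  have htA : t.len ∈ A := len_mem_of_split (hT' _) ht hu₁ hu₂ hu
  obtain ⟨ξ0, hξ0, hlen⟩ : ∃ ξ < κ.ord.cof.ord, t.len = b ξ := by
    rcases eq_or_ne (s₁.fn t.len) 0 with h0 | h0
    · have h3 : s₂.fn t.len ≠ 0 := fun h4 => hne (h0.trans h4.symm)
      obtain ⟨ξ, h5, h6, _⟩ := ((hT' _).sub hs₂).2 _ h3
      exact ⟨ξ, h5, h6⟩
    · obtain ⟨ξ, h5, h6, _⟩ := ((hT' _).sub hs₁).2 _ h0
      exact ⟨ξ, h5, h6⟩
  have htT : t ∈ tree κ κ.ord.cof.ord b := (hT' _).sub ht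
  obtain ⟨γ, hγ, hγb⟩ : ∃ γ < κ.ord.cof.ord, ∀ ξ : Iio ξ0, t.fn (b ξ.1) ≤ γ := by
    apply bdd_lift hμr
    · rw [Cardinal.mk_Iio_ordinal, Cardinal.lift_lt]
      exact Cardinal.lt_ord.1 hξ0
    · intro ξ
      rcases eq_or_ne (t.fn (b ξ.1)) 0 with h0 | h0
      · rw [h0]; exact ord_pos' hμ0
      · obtain ⟨_, _, _, h6⟩ := htT.2 _ h0
        exact h6
  have hγ1 : γ + 1 < κ.ord.cof.ord := (Cardinal.isSuccLimit_ord hμ0).add_one_lt hγ
  have hlκ : ∀ {o : Ordinal.{u}}, o < κ.ord → o + 1 < κ.ord :=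
    fun h => (Cardinal.isSuccLimit_ord hκ).add_one_lt h
  obtain ⟨α, hαA, hα⟩ := hA.2 (max (b (γ + 1)) t.len + 1)
    (hlκ (max_lt (hb1 _ hγ1) (hR.len_lt t ht)))
  have hα1 : b (γ + 1) < α :=
    (Order.lt_add_one_iff.2 (le_max_left _ _)).trans_le hα
  have hα2 : t.len < α := (Order.lt_add_one_iff.2 (le_max_right _ _)).trans_le hα
  have hακ : α < κ.ord := hA.1 α hαA
  set r := idx b α with hr
  obtain ⟨ξ1, hξ1, hξ1α⟩ := hb3 α hακ
  have hrμ : r < κ.ord.cof.ord := (csInf_le' (show ξ1 ∈ {ξ | α ≤ b ξ} from hξ1α)).trans_lt hξ1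
  have hrα : α ≤ b r := csInf_mem (s := {ξ | α ≤ b ξ}) ⟨ξ1, hξ1α⟩
  have hγr : γ + 1 < r := by
    by_contra hc
    push Not at hc
    rcases hc.eq_or_lt with h | h
    · rw [h] at hrα
      exact absurd hα1 (not_lt.2 hrα)
    · exact absurd ((hb2 r hrμ _ hγ1 h).trans hα1) (not_lt.2 hrα)
  have key : ∀ i < κ.ord.cof.ord, r ≤ i → j = i % 2 := by
    intro i hi hri
    have hsn : snoc t i ∈ T' ⟨0, hd⟩ := by
      refine (hT' ⟨0, hd⟩).of_mem t ht htA _ ⟨?_, le_snoc _ _, rfl⟩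
      exact snoc_mem_tree htT hξ0 hlen (hlκ (hR.len_lt t ht)) hi
    obtain ⟨x, hx, hxl, hsx⟩ := exists_ext hR hsn hακ (Order.add_one_le_of_lt hα2)
    have hx0 : x.fn (b ξ0) = i := by
      have := hsx.2 t.len (Order.lt_add_one_iff.2 le_rfl)
      rw [snoc_fn] at this
      rw [← hlen]
      exact this.symm
    have hxξ : ∀ ξ < ξ0, x.fn (b ξ) ≤ γ := by
      intro ξ hξ
      have hbl : b ξ < t.len := by
        rw [hlen]; exact hb2 ξ (hξ.trans hξ0) ξ0 hξ0 hξ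
      have := hsx.2 (b ξ) (hbl.trans (Order.lt_add_one_iff.2 le_rfl))
      rw [snoc_fn_ne _ _ hbl.ne] at this
      rw [← this]
      exact hγb ⟨ξ, hξ⟩
    have hmem : ξ0 ∈ {ξ | ξ < κ.ord.cof.ord ∧ b ξ < x.len ∧ idx b x.len ≤ x.fn (b ξ)} := by
      refine ⟨hξ0, ?_, ?_⟩
      · rw [hxl, ← hlen]; exact hα2
      · rw [hxl, hx0]; exact hri
    have hinf : sInf {ξ | ξ < κ.ord.cof.ord ∧ b ξ < x.len ∧ idx b x.len ≤ x.fn (b ξ)} = ξ0 := by
      refine le_antisymm (csInf_le' hmem) ?_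
      refine le_csInf ⟨_, hmem⟩ ?_
      rintro ξ ⟨_, _, h5⟩
      by_contra hc
      push Not at hc
      rw [hxl] at h5
      have h6 := h5.trans (hxξ ξ hc)
      exact absurd ((Order.lt_add_one_iff.2 le_rfl).trans hγr) (not_lt.2 h6)
    have hcol : col κ.ord.cof.ord b x = i % 2 := by
      unfold col
      rw [if_pos ⟨ξ0, hmem⟩, hinf, hx0]
    have hne' : ∀ k : Fin d, (level (T' k) α).Nonempty :=
      fun k => (hT' k).level_nonempty α hακ
    have := hj α hαA (Function.update (fun k => (hne' k).some) ⟨0, hd⟩ x) (by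
      intro k
      rcases eq_or_ne k ⟨0, hd⟩ with rfl | hk
      · rw [Function.update_self]; exact ⟨hx, hxl⟩
      · rw [Function.update_of_ne hk]; exact (hne' k).some_mem)
    simp only [Function.update_self] at this
    rw [← this, hcol]
  have h7 := key r hrμ le_rfl
  have h8 := key (r + 1) ((Cardinal.isSuccLimit_ord hμ0).add_one_lt hrμ)
    (Order.lt_add_one_iff.2 le_rfl).le
  exact mod_two_ne r (h7.symm.trans h8)

/-- For `σ ≥ cf κ` colours the failure at singular `κ` is witnessed by a colouring of the levels. -/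
theorem not_HL_level {κ : Cardinal.{u}} (hκ : ℵ₀ ≤ κ) {T : Set Node.{u}} (hT : IsRegularTree κ T)
    {d : ℕ} (hd : 0 < d) {σ : Cardinal.{u}} (hσ : κ.ord.cof ≤ σ) : ¬ HL d σ κ := by
  classical
  intro H
  obtain ⟨b, hb1, hb2, hb3⟩ := exists_seq κ
  have hμr : κ.ord.cof.IsRegular := Cardinal.isRegular_cof (Cardinal.isSuccLimit_ord hκ)
  have hμ0 : ℵ₀ ≤ κ.ord.cof := hμr.aleph0_le
  have hidx : ∀ α < κ.ord, idx b α < κ.ord.cof.ord := by
    intro α hα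
    obtain ⟨ξ, h1, h2⟩ := hb3 α hα
    exact (csInf_le' (show ξ ∈ {ξ | α ≤ b ξ} from h2)).trans_lt h1
  obtain ⟨A, hA, T', hT', j, hj⟩ := H (fun _ => T) (fun _ => hT)
    (fun x => if (x ⟨0, hd⟩).len < κ.ord then idx b (x ⟨0, hd⟩).len else 0) (fun x => by
      have h3 := Cardinal.ord_le_ord.2 hσ
      split_ifs with h
      · exact (hidx _ h).trans_le h3
      · exact (ord_pos' hμ0).trans_le h3)
  have key : ∀ α ∈ A, idx b α = j := by
    intro α hα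
    have hακ := hA.1 α hα
    have hne' : ∀ k : Fin d, (level (T' k) α).Nonempty :=
      fun k => (hT' k).level_nonempty α hακ
    have := hj α hα (fun k => (hne' k).some) (fun k => (hne' k).some_mem)
    have h5 : ((hne' ⟨0, hd⟩).some).len = α := (hne' ⟨0, hd⟩).some_mem.2
    simp only [h5, if_pos hακ] at this
    exact this
  obtain ⟨α0, hα0, _⟩ := hA.2 0 (ord_pos' hκ)
  have hjμ : j < κ.ord.cof.ord := by
    rw [← key α0 hα0]; exact hidx _ (hA.1 α0 hα0)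
  obtain ⟨α, hα, hjα⟩ := hA.2 (b j + 1) ((Cardinal.isSuccLimit_ord hκ).add_one_lt (hb1 j hjμ))
  have h6 : α ≤ b (idx b α) := by
    obtain ⟨ξ, h1, h2⟩ := hb3 α (hA.1 α hα)
    exact csInf_mem (s := {ξ | α ≤ b ξ}) ⟨ξ, h2⟩
  rw [key α hα] at h6
  exact absurd ((Order.lt_add_one_iff.2 le_rfl).trans_le (hjα.trans h6)) (lt_irrefl _)

end Pool.Agent.H348R6.HLT
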