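import Mathlib

set_option autoImplicit false

/-!
Forcing notions, names for functions, and transfinite descending constructions.
-/

namespace Pool.Agent.H348R6.TF

open Cardinal

universe u v

/-- `Q` is `< κ`-closed: every descending sequence of length `δ < κ` has a lower bound. -/
def LtClosed (κ : Cardinal.{u}) (Q : Type v) [Preorder Q] : Prop :=
  ∀ δ : Ordinal.{u}, δ < κ.ord → ∀ p : Set.Iio δ → Q, Antitone p → ∃ q : Q, ∀ i, q ≤ p i

/-- Two conditions are compatible if they have a common lower bound. -/
def Compat {Q : Type v} [Preorder Q] (p q : Q) : Prop := ∃ r, r ≤ p ∧ r ≤ q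

/-- `Q` is `κ⁺`-cc: every antichain has size at most `κ`. -/
def SuccCC (κ : Cardinal.{u}) (Q : Type v) [Preorder Q] : Prop :=
  ∀ A : Set Q, (∀ p ∈ A, ∀ q ∈ A, p ≠ q → ¬ Compat p q) →
    Cardinal.lift.{u} #A ≤ Cardinal.lift.{v} κ

/-- A `Q`-name for a function from `κ` to `κ`, given by its forcing relation. -/
structure FunName (κ : Cardinal.{u}) (Q : Type v) [Preorder Q] where
  /-- `forces p α β` : the condition `p` forces the value of the function at `α` to be `β`. -/
  forces : Q → Ordinal.{u} → Ordinal.{u} → Prop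
  mono : ∀ p q : Q, q ≤ p → ∀ α β, forces p α β → forces q α β
  unique : ∀ (p : Q) (α β γ : Ordinal.{u}), forces p α β → forces p α γ → β = γ
  total : ∀ (p : Q) (α : Ordinal.{u}), α < κ.ord → ∃ q, q ≤ p ∧ ∃ β, β < κ.ord ∧ forces q α β

/-- `Q` is `κ^κ`-bounding: every function from `κ` to `κ` in the extension is everywhere below
some function from `κ` to `κ` of the ground model. -/
def Bounding (κ : Cardinal.{u}) (Q : Type v) [Preorder Q] : Prop :=
  ∀ (x : FunName κ Q) (p : Q), ∃ q, q ≤ p ∧ ∃ z : Ordinal.{u} → Ordinal.{u},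
    (∀ α, α < κ.ord → z α < κ.ord) ∧
      ∀ α, α < κ.ord → ∀ r, r ≤ q → ∀ β, x.forces r α β → β < z α

section chain

variable {Q : Type v} [Preorder Q]

open Classical in
/-- A condition with the property `P` if there is one, and `p` otherwise. -/
noncomputable def pick (p : Q) (P : Q → Prop) : Q :=
  if h : ∃ q, P q then h.choose else p

theorem pick_spec (p : Q) (P : Q → Prop) (h : ∃ q, P q) : P (pick p P) := by
  rw [pick, dif_pos h]
  exact h.choose_spec

/-- A descending sequence below `p`, whose next element is below the step of each earlier one. -/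
noncomputable def chain (step : Ordinal.{u} → Q → Q) (p : Q) (i : Ordinal.{u}) : Q :=
  pick p (fun q => q ≤ p ∧ ∀ j : Set.Iio i, q ≤ step j.1 (chain step p j.1))
termination_by i
decreasing_by exact j.2

theorem chain_spec {κ : Cardinal.{u}} (hcl : LtClosed κ Q) (step : Ordinal.{u} → Q → Q)
    (hstep : ∀ j q, step j q ≤ q) (p : Q) (i : Ordinal.{u}) (hi : i < κ.ord) :
    chain step p i ≤ p ∧ ∀ j, j < i → chain step p i ≤ step j (chain step p j) := by
  induction i using WellFoundedLT.induction with
  | _ i ih =>
    have hex : ∃ q, q ≤ p ∧ ∀ j : Set.Iio i, q ≤ step j.1 (chain step p j.1) := by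
      rcases eq_or_ne i 0 with h0 | h0
      · subst h0
        exact ⟨p, le_refl _, fun j => absurd j.2 (by simp)⟩
      · have hanti : Antitone (fun j : Set.Iio i => step j.1 (chain step p j.1)) := by
          intro j k hjk
          rcases eq_or_lt_of_le hjk with h | h
          · subst h; exact le_refl _
          · exact (hstep _ _).trans ((ih k.1 k.2 (lt_trans k.2 hi)).2 j.1 h)
        obtain ⟨q, hq⟩ := hcl i hi _ hanti
        have h0' : (0 : Ordinal.{u}) < i := pos_iff_ne_zero.2 h0
        refine ⟨q, ?_, hq⟩
        exact (hq ⟨0, h0'⟩).trans ((hstep _ _).trans (ih 0 h0' (lt_trans h0' hi)).1)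
    have h := pick_spec p _ hex
    rw [← chain] at h
    exact ⟨h.1, fun j hj => h.2 ⟨j, hj⟩⟩

theorem chain_congr (step step' : Ordinal.{u} → Q → Q) (p : Q) (i : Ordinal.{u})
    (h : ∀ j, j < i → step j = step' j) : chain step p i = chain step' p i := by
  induction i using WellFoundedLT.induction with
  | _ i ih =>
    have hP : (fun q : Q => q ≤ p ∧ ∀ j : Set.Iio i, q ≤ step j.1 (chain step p j.1)) =
        (fun q : Q => q ≤ p ∧ ∀ j : Set.Iio i, q ≤ step' j.1 (chain step' p j.1)) := by
      funext q
      refine propext (and_congr Iff.rfl (forall_congr' fun j => ?_))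
      rw [ih j.1 j.2 (fun k hk => h k (lt_trans hk j.2)), h j.1 j.2]
    rw [chain, chain, hP]

end chain

end Pool.Agent.H348R6.TF
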