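import Mathlib
import Pool.Agent.H348R6.TF1

set_option autoImplicit false

/-!
No `< κ`-closed, `κ⁺`-cc forcing at a successor cardinal `κ` which adds a new function on `κ` is
`κ^κ`-bounding.
-/

namespace Pool.Agent.H348R6.TF

open Cardinal

universe u v

variable {Q : Type v} [Preorder Q] {κ lam : Cardinal.{u}}

/-- `q` decides the values of `x` below `α` to be `y`. -/
def Dec (x : FunName κ Q) (q : Q) (α : Ordinal.{u}) (y : Set.Iio α → Ordinal.{u}) : Prop :=
  ∀ i : Set.Iio α, x.forces q i.1 (y i)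

theorem Dec.mono {x : FunName κ Q} {p q : Q} (h : q ≤ p) {α : Ordinal.{u}}
    {y : Set.Iio α → Ordinal.{u}} (hy : Dec x p α y) : Dec x q α y :=
  fun i => x.mono _ _ h _ _ (hy i)

theorem Dec.unique {x : FunName κ Q} {q : Q} {α : Ordinal.{u}}
    {y y' : Set.Iio α → Ordinal.{u}} (hy : Dec x q α y) (hy' : Dec x q α y') : y = y' :=
  funext fun i => x.unique _ _ _ _ (hy i) (hy' i)

theorem exists_dec (hcl : LtClosed κ Q) (x : FunName κ Q) (p : Q) (α : Ordinal.{u})
    (hα : α < κ.ord) : ∃ q, q ≤ p ∧ ∃ y, Dec x q α y := by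
  classical
  have hst : ∀ (j : Ordinal.{u}) (q : Q), ∃ r, r ≤ q ∧ (j < κ.ord → ∃ β, x.forces r j β) := by
    intro j q
    by_cases hj : j < κ.ord
    · obtain ⟨r, hr, β, _, h⟩ := x.total q j hj
      exact ⟨r, hr, fun _ => ⟨β, h⟩⟩
    · exact ⟨q, le_refl _, fun h => absurd h hj⟩
  choose step hstep hdec using hst
  have h := chain_spec hcl step hstep p α hα
  refine ⟨chain step p α, h.1, ?_⟩
  have h2 : ∀ i : Set.Iio α, ∃ β, x.forces (chain step p α) i.1 β := by
    intro i
    obtain ⟨β, hβ⟩ := hdec i.1 (chain step p i.1) (lt_trans i.2 hα)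
    exact ⟨β, x.mono _ _ (h.2 i.1 i.2) _ _ hβ⟩
  choose y hy using h2
  exact ⟨y, hy⟩

/-- The possible values of `x` below `α`, according to conditions below `q`. -/
def Vals (x : FunName κ Q) (q : Q) (α : Ordinal.{u}) : Set (Set.Iio α → Ordinal.{u}) :=
  {y | ∃ r, r ≤ q ∧ Dec x r α y}

/-- The possible values of `x` below `α`. -/
def AllVals (x : FunName κ Q) (α : Ordinal.{u}) : Set (Set.Iio α → Ordinal.{u}) :=
  {y | ∃ r, Dec x r α y}

theorem card_allVals (hcc : SuccCC κ Q) (x : FunName κ Q) (α : Ordinal.{u}) :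
    #(AllVals x α) ≤ #(Set.Iio κ.ord) := by
  have h : ∀ y : AllVals x α, ∃ r, Dec x r α y.1 := fun y => y.2
  choose r hr using h
  have hinj : Function.Injective r := by
    intro y y' hyy
    refine Subtype.ext ((hr y).unique ?_)
    rw [hyy]
    exact hr y'
  have hA := hcc (Set.range r) (by
    rintro _ ⟨y, rfl⟩ _ ⟨y', rfl⟩ hne ⟨c, hc, hc'⟩
    refine hne ?_
    have : y = y' := Subtype.ext (((hr y).mono hc).unique ((hr y').mono hc'))
    rw [this])
  have h1 : Cardinal.lift.{u + 1} #(Set.range r) = Cardinal.lift.{v} #(AllVals x α) :=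
    Cardinal.mk_range_eq_of_injective hinj
  have h2 : Cardinal.lift.{u + 1} (Cardinal.lift.{u} #(Set.range r)) ≤
      Cardinal.lift.{u + 1} (Cardinal.lift.{v} κ) := Cardinal.lift_le.2 hA
  have h3 : Cardinal.lift.{v} #(AllVals x α) ≤ Cardinal.lift.{v} #(Set.Iio κ.ord) := by
    rw [← h1, Cardinal.mk_Iio_ordinal, Cardinal.card_ord]
    simpa using h2
  exact Cardinal.lift_le.1 h3

theorem exists_code (hcc : SuccCC κ Q) (hκ : 0 < κ) (x : FunName κ Q) (α : Ordinal.{u}) :
    ∃ e : (Set.Iio α → Ordinal.{u}) → Ordinal.{u},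
      (∀ y, e y < κ.ord) ∧ Set.InjOn e (AllVals x α) := by
  classical
  obtain ⟨f⟩ := Cardinal.le_def _ _ |>.1 (card_allVals hcc x α)
  have h0 : (0 : Ordinal.{u}) < κ.ord := by
    rw [Cardinal.lt_ord]
    simpa using hκ
  refine ⟨fun y => if h : y ∈ AllVals x α then (f ⟨y, h⟩).1 else 0, ?_, ?_⟩
  · intro y
    by_cases h : y ∈ AllVals x α
    · simp only [h, dite_true]
      exact (f ⟨y, h⟩).2
    · simp only [h, dite_false]
      exact h0
  · intro y hy y' hy' h
    simp only [hy, hy', dite_true] at h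
    have := f.injective (Subtype.ext h)
    exact congrArg Subtype.val this

end Pool.Agent.H348R6.TF
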