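import Mathlib
import Pool.Agent.H348R6.TF2

set_option autoImplicit false

/-!
No `< κ`-closed, `κ⁺`-cc forcing at a successor cardinal `κ` which adds a new function on `κ` is
`κ^κ`-bounding.
-/

namespace Pool.Agent.H348R6.TF

open Cardinal

universe u v

variable {Q : Type v} [Preorder Q] {κ lam : Cardinal.{u}}

/-- If `Q` is `κ^κ`-bounding, some condition leaves fewer than `κ` values below each `α`. -/
theorem exists_small (hκ : κ = Order.succ lam) [Nonempty Q]
    (hcl : LtClosed κ Q) (hcc : SuccCC κ Q) (hb : Bounding κ Q) (x : FunName κ Q) :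
    ∃ q : Q, ∀ α, α < κ.ord → #(Vals x q α) ≤ Cardinal.lift.{u + 1} lam := by
  have hpos : 0 < κ := by
    rw [hκ]
    exact lt_of_le_of_lt bot_le (Order.lt_succ lam)
  have hE := exists_code (Q := Q) hcc hpos x
  choose e he_lt he_inj using hE
  let F : FunName κ Q :=
    { forces := fun q α γ => ∃ y, Dec x q α y ∧ γ = e α y
      mono := by
        rintro p q hqp α β ⟨y, hy, rfl⟩
        exact ⟨y, hy.mono hqp, rfl⟩
      unique := by
        rintro p α β γ ⟨y, hy, rfl⟩ ⟨y', hy', rfl⟩
        rw [hy.unique hy']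
      total := by
        intro p α hα
        obtain ⟨q, hq, y, hy⟩ := exists_dec hcl x p α hα
        exact ⟨q, hq, e α y, he_lt α y, y, hy, rfl⟩ }
  obtain ⟨q, _, z, hz, hF⟩ := hb F (Classical.arbitrary Q)
  refine ⟨q, fun α hα => ?_⟩
  have hsub : ∀ y : Vals x q α, y.1 ∈ AllVals x α := fun y => by
    obtain ⟨r, _, hr⟩ := y.2
    exact ⟨r, hr⟩
  have hlt : ∀ y : Vals x q α, e α y.1 < z α := fun y => by
    obtain ⟨r, hrq, hr⟩ := y.2
    exact hF α hα r hrq _ ⟨y.1, hr, rfl⟩
  have h1 : #(Vals x q α) ≤ #(Set.Iio (z α)) := by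
    refine Cardinal.mk_le_of_injective (f := fun y => ⟨e α y.1, hlt y⟩) ?_
    intro y y' h
    exact Subtype.ext (he_inj α (hsub y) (hsub y') (congrArg Subtype.val h))
  refine h1.trans ?_
  rw [Cardinal.mk_Iio_ordinal]
  refine Cardinal.lift_le.2 ?_
  have := hz α hα
  rw [Cardinal.lt_ord, hκ] at this
  exact Order.lt_succ_iff.1 this

theorem no_bounding (hl : ℵ₀ ≤ lam) (hκ : κ = Order.succ lam) [Nonempty Q]
    (hcl : LtClosed κ Q) (hcc : SuccCC κ Q) (hb : Bounding κ Q) (x : FunName κ Q)
    (hnew : ∀ p : Q, ∃ α, α < κ.ord ∧ ∃ q : Bool → Q, (∀ b, q b ≤ p) ∧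
      ∃ β : Bool → Ordinal.{u}, β false ≠ β true ∧ ∀ b, x.forces (q b) α (β b)) : False := by
  classical
  obtain ⟨q, hq⟩ := exists_small hκ hcl hcc hb x
  have hreg : κ.IsRegular := by rw [hκ]; exact isRegular_succ hl
  have hlk : lam < κ := by rw [hκ]; exact Order.lt_succ lam
  choose A hA S hS B hB hf using hnew
  have hB' : ∀ p b b', b ≠ b' → B p b ≠ B p b' := by
    intro p b b' hbb
    cases b <;> cases b' <;> simp_all
    exact fun h => hB p h.symm
  let st : (Ordinal.{u} → Bool) → Ordinal.{u} → Q → Q := fun r j p => S p (r j)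
  let t : (Ordinal.{u} → Bool) → Ordinal.{u} → Q := fun r j => chain (st r) q j
  have hst : ∀ r j p, st r j p ≤ p := fun r j p => hS p (r j)
  have ht : ∀ r i, i < κ.ord → t r i ≤ q ∧ ∀ j, j < i → t r i ≤ S (t r j) (r j) :=
    fun r i hi => chain_spec hcl (st r) (hst r) q i hi
  have htc : ∀ r r' i, (∀ j, j < i → r j = r' j) → t r i = t r' i := by
    intro r r' i h
    refine chain_congr _ _ _ _ fun j hj => ?_
    show (fun p => S p (r j)) = fun p => S p (r' j)
    rw [h j hj]
  let ext : (j : Ordinal.{u}) → (Set.Iio j → Bool) → (Ordinal.{u} → Bool) :=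
    fun j s k => if h : k < j then s ⟨k, h⟩ else false
  have key : ∀ i : Ordinal.{u}, i < κ.ord → #(Set.Iio i → Bool) ≤ Cardinal.lift.{u + 1} lam := by
    intro i
    induction i using WellFoundedLT.induction with
    | _ i ih =>
    intro hi
    let J : Type (u + 1) := Σ j : Set.Iio i, (Set.Iio j.1 → Bool)
    have hcardi : #(Set.Iio i) ≤ Cardinal.lift.{u + 1} lam := by
      rw [Cardinal.mk_Iio_ordinal]
      refine Cardinal.lift_le.2 ?_
      rw [Cardinal.lt_ord, hκ] at hi
      exact Order.lt_succ_iff.1 hi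
    have hJ : #J ≤ Cardinal.lift.{u + 1} lam := by
      rw [Cardinal.mk_sigma]
      have hle : ∀ j : Set.Iio i, #(Set.Iio j.1 → Bool) ≤ Cardinal.lift.{u + 1} lam :=
        fun j => ih j.1 j.2 (lt_trans j.2 hi)
      refine (Cardinal.sum_le_sum _ _ hle).trans ?_
      rw [Cardinal.sum_const']
      refine (mul_le_mul' hcardi le_rfl).trans ?_
      rw [← Cardinal.lift_mul, Cardinal.mul_eq_self hl]
    let g : J → Ordinal.{u} := fun js => A (t (ext js.1.1 js.2) js.1.1)
    have hg : ∀ js, g js < κ.ord := fun js => hA _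
    have hsup : ⨆ js, g js + 1 < κ.ord := by
      refine Ordinal.lift_iSup_add_one_lt_of_lt_cof ?_ hg
      rw [← Ordinal.lift_cof, hreg.cof_ord]
      refine lt_of_le_of_lt (Cardinal.lift_le.2 hJ) ?_
      rw [Cardinal.lift_lift]
      exact Cardinal.lift_lt.2 hlk
    set β : Ordinal.{u} := ⨆ js, g js + 1 with hβ
    have hgβ : ∀ js, g js < β := by
      intro js
      have hbdd : BddAbove (Set.range fun js : J => g js + 1) := by
        refine ⟨κ.ord, ?_⟩
        rintro _ ⟨js, rfl⟩
        exact Order.add_one_le_iff.2 (hg js)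
      exact lt_of_lt_of_le (Order.lt_add_one_iff.2 le_rfl) (le_ciSup hbdd js)
    have hdec : ∀ s : Set.Iio i → Bool, ∃ c, c ≤ t (ext i s) i ∧ ∃ y, Dec x c β y :=
      fun s => exists_dec hcl x _ β hsup
    choose c hc y hy using hdec
    have hinj : Function.Injective (fun s : Set.Iio i → Bool =>
        (⟨y s, c s, (hc s).trans (ht _ _ hi).1, hy s⟩ : Vals x q β)) := by
      intro s s' hss
      have hyy : y s = y s' := congrArg Subtype.val hss
      by_contra hne
      have hex : ∃ k : Set.Iio i, s k ≠ s' k := by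
        by_contra hcon
        push Not at hcon
        exact hne (funext hcon)
      obtain ⟨k, hk, hmin⟩ := WellFounded.has_min (wellFounded_lt (α := Set.Iio i))
        {k | s k ≠ s' k} hex
      have hagree : ∀ j, j < k.1 → ext i s j = ext i s' j := by
        intro j hj
        have hji : j < i := lt_trans hj k.2
        simp only [ext, hji, dite_true]
        by_contra hcon
        exact hmin ⟨j, hji⟩ hcon hj
      have htk : t (ext i s) k.1 = t (ext i s') k.1 := htc _ _ _ hagree
      let u0 : Set.Iio k.1 → Bool := fun j => s ⟨j.1, lt_trans (Set.mem_Iio.1 j.2) (Set.mem_Iio.1 k.2)⟩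
      have htu : t (ext k.1 u0) k.1 = t (ext i s) k.1 := by
        refine htc _ _ _ fun j hj => ?_
        have hji : j < i := lt_trans hj k.2
        simp only [ext, hj, hji, dite_true, u0]
      have hAβ : A (t (ext i s) k.1) < β := by
        have := hgβ ⟨k, u0⟩
        simp only [g] at this
        rwa [htu] at this
      have h1 : x.forces (c s) (A (t (ext i s) k.1)) (B (t (ext i s) k.1) (ext i s k.1)) :=
        x.mono _ _ ((hc s).trans ((ht _ _ hi).2 k.1 k.2)) _ _ (hf _ _)
      have h2 : x.forces (c s') (A (t (ext i s') k.1)) (B (t (ext i s') k.1) (ext i s' k.1)) :=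
        x.mono _ _ ((hc s').trans ((ht _ _ hi).2 k.1 k.2)) _ _ (hf _ _)
      rw [← htk] at h2
      have h3 := hy s ⟨_, hAβ⟩
      have h4 := hy s' ⟨_, hAβ⟩
      have h5 := x.unique _ _ _ _ h1 h3
      have h6 := x.unique _ _ _ _ h2 h4
      rw [← hyy] at h6
      have h7 : ext i s k.1 ≠ ext i s' k.1 := by
        have hki : k.1 < i := k.2
        simp only [ext, hki, dite_true]
        exact hk
      exact hB' _ _ _ h7 (h5.trans h6.symm)
    exact (Cardinal.mk_le_of_injective hinj).trans (hq β hsup)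
  have h := key lam.ord (by rw [Cardinal.ord_lt_ord]; exact hlk)
  rw [Cardinal.mk_arrow, Cardinal.mk_Iio_ordinal, Cardinal.card_ord] at h
  simp only [Cardinal.mk_bool, Cardinal.lift_ofNat, Cardinal.lift_lift] at h
  have h2 : Cardinal.lift.{u + 1} ((2 : Cardinal.{u}) ^ lam) ≤ Cardinal.lift.{u + 1} lam := by
    simpa using h
  exact absurd (Cardinal.lift_le.1 h2) (not_le.2 (Cardinal.cantor lam))

end Pool.Agent.H348R6.TF
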