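import Mathlib
import Pool.Agent.H348R6.TF3

set_option autoImplicit false

/-!
Tree forcings on `2^{<κ}`.
-/

namespace Pool.Agent.H348R6.TF

open Cardinal

universe u v

variable {κ lam : Cardinal.{u}}

/-- A node of `2^{<κ}`: a sequence of zeros and ones of length `len < κ`. -/
structure Node (κ : Cardinal.{u}) where
  /-- the length -/
  len : Ordinal.{u}
  len_lt : len < κ.ord
  /-- the entries -/
  val : Set.Iio len → Bool

/-- `s` is an initial segment of `t`. -/
def Node.Init (s t : Node κ) : Prop :=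
  ∃ h : s.len ≤ t.len, ∀ i : Set.Iio s.len, t.val ⟨i.1, lt_of_lt_of_le i.2 h⟩ = s.val i

/-- `t` is the sequence `s` followed by the one further entry `b`. -/
def Node.Snoc (s t : Node κ) (b : Bool) : Prop :=
  s.Init t ∧ t.len = s.len + 1 ∧ ∃ h : s.len < t.len, t.val ⟨s.len, h⟩ = b

/-- A tree: a set of nodes closed under initial segments. -/
def IsTree (T : Set (Node κ)) : Prop := ∀ t ∈ T, ∀ s : Node κ, s.Init t → s ∈ T

/-- `s` is a splitting node of `T`: both one-entry extensions of `s` are in `T`. -/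
def Splits (T : Set (Node κ)) (s : Node κ) : Prop := ∀ b : Bool, ∃ t ∈ T, s.Snoc t b

/-- The nodes of `T` comparable with `t`. -/
def above (T : Set (Node κ)) (t : Node κ) : Set (Node κ) := {s | s ∈ T ∧ (s.Init t ∨ t.Init s)}

/-- A tree forcing: a set of nonempty trees in `2^{<κ}`, to be ordered by inclusion, such that
every node of a tree in it extends to a splitting node of that tree, and which contains with a
tree `T` and a node `t` of it also the tree of all nodes of `T` comparable with `t`. -/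
structure IsTreeForcing (P : Set (Set (Node κ))) : Prop where
  nonempty : ∀ T ∈ P, T.Nonempty
  tree : ∀ T ∈ P, IsTree T
  splits : ∀ T ∈ P, ∀ t ∈ T, ∃ s ∈ T, t.Init s ∧ Splits T s
  above_mem : ∀ T ∈ P, ∀ t ∈ T, above T t ∈ P

theorem Node.Init.refl (s : Node κ) : s.Init s := ⟨le_refl _, fun _ => rfl⟩

theorem init_of_comp {a b : Node κ} (h : a.Init b ∨ b.Init a) (hl : a.len ≤ b.len) :
    a.Init b := by
  rcases h with h | ⟨h, h2⟩
  · exact h
  · refine ⟨hl, fun i => ?_⟩
    exact (h2 ⟨i.1, lt_of_lt_of_le i.2 hl⟩).symm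

/-- A node comparable with both one-entry extensions of `s` is not longer than `s`. -/
theorem len_le_of_comp {s t0 t1 w : Node κ} (h0 : s.Snoc t0 false) (h1 : s.Snoc t1 true)
    (c0 : t0.Init w ∨ w.Init t0) (c1 : t1.Init w ∨ w.Init t1) : w.len ≤ s.len := by
  by_contra hlt
  rw [not_le] at hlt
  obtain ⟨_, e0, k0, v0⟩ := h0
  obtain ⟨_, e1, k1, v1⟩ := h1
  have l0 : t0.len ≤ w.len := by rw [e0]; exact Order.add_one_le_iff.2 hlt
  have l1 : t1.len ≤ w.len := by rw [e1]; exact Order.add_one_le_iff.2 hlt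
  obtain ⟨_, g0⟩ := init_of_comp c0 l0
  obtain ⟨_, g1⟩ := init_of_comp c1 l1
  have a0 := g0 ⟨s.len, k0⟩
  have a1 := g1 ⟨s.len, k1⟩
  rw [v0] at a0
  rw [v1] at a1
  rw [a0] at a1
  exact Bool.false_ne_true a1

variable {P : Set (Set (Node κ))}

/-- The condition of all nodes comparable with a node. -/
def cond (hP : IsTreeForcing P) (p : P) (t : Node κ) (ht : t ∈ p.1) : P :=
  ⟨above p.1 t, hP.above_mem _ p.2 _ ht⟩

theorem cond_le (hP : IsTreeForcing P) (p : P) (t : Node κ) (ht : t ∈ p.1) :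
    cond hP p t ht ≤ p := fun _ hs => hs.1

/-- Every condition has arbitrarily long nodes. -/
theorem exists_long (hP : IsTreeForcing P) (hcl : LtClosed κ P) (p : P) (α : Ordinal.{u})
    (hα : α < κ.ord) : ∃ t ∈ p.1, α ≤ t.len := by
  have hex : ∀ q : P, ∃ s ∈ q.1, ∃ t0 ∈ q.1, ∃ t1 ∈ q.1, s.Snoc t0 false ∧ s.Snoc t1 true := by
    intro q
    obtain ⟨t, ht⟩ := hP.nonempty _ q.2
    obtain ⟨s, hs, _, hsp⟩ := hP.splits _ q.2 t ht
    obtain ⟨t0, h0, h0'⟩ := hsp false
    obtain ⟨t1, h1, h1'⟩ := hsp true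
    exact ⟨s, hs, t0, h0, t1, h1, h0', h1'⟩
  choose s hs t0 ht0 t1 ht1 h0 h1 using hex
  let step : Ordinal.{u} → P → P := fun _ q => cond hP q (t0 q) (ht0 q)
  have hstep : ∀ j q, step j q ≤ q := fun _ q => cond_le hP q _ _
  have hspec := fun i hi => chain_spec hcl step hstep p i hi
  have hmono : ∀ i, i < κ.ord → ∀ j, j < i →
      (s (chain step p j)).len < (s (chain step p i)).len := by
    intro i hi j hj
    have hsub := (hspec i hi).2 j hj
    have hw := len_le_of_comp (w := t0 (chain step p j)) (h0 (chain step p i))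
      (h1 (chain step p i)) (hsub (ht0 _)).2 (hsub (ht1 _)).2
    refine lt_of_lt_of_le ?_ hw
    exact (h0 (chain step p j)).2.2.1
  have hge : ∀ i, i < κ.ord → i ≤ (s (chain step p i)).len := by
    intro i
    induction i using WellFoundedLT.induction with
    | _ i ih =>
      intro hi
      refine le_of_forall_lt fun j hj => ?_
      exact lt_of_le_of_lt (ih j hj (lt_trans hj hi)) (hmono i hi j hj)
  exact ⟨s (chain step p α), (hspec α hα).1 (hs _), hge α hα⟩

/-- Zero for `false` and one for `true`. -/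
noncomputable def bit (b : Bool) : Ordinal.{u} := if b then 1 else 0

theorem bit_ne : (bit false : Ordinal.{u}) ≠ bit true := by
  simp [bit]

theorem comp_val {s t : Node κ} (h : s.Init t ∨ t.Init s) {α : Ordinal.{u}} (h1 : α < s.len)
    (h2 : α < t.len) : s.val ⟨α, h1⟩ = t.val ⟨α, h2⟩ := by
  rcases h with ⟨_, h⟩ | ⟨_, h⟩
  · exact (h ⟨α, h1⟩).symm
  · exact h ⟨α, h2⟩

/-- The name of the generic branch. -/
noncomputable def branch (hk : ℵ₀ ≤ κ) (hP : IsTreeForcing P) (hcl : LtClosed κ P) :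
    FunName κ P where
  forces p α β := α < κ.ord ∧ ∀ t ∈ p.1, ∀ h : α < t.len, β = bit (t.val ⟨α, h⟩)
  mono := by
    rintro p q hqp α β ⟨h1, h2⟩
    exact ⟨h1, fun t ht h => h2 t (hqp ht) h⟩
  unique := by
    rintro p α β γ ⟨h1, h2⟩ ⟨_, h3⟩
    have hα : α + 1 < κ.ord := (Cardinal.isSuccLimit_ord hk).add_one_lt h1
    obtain ⟨t, ht, hlen⟩ := exists_long hP hcl p _ hα
    have hl : α < t.len := Order.add_one_le_iff.1 hlen
    rw [h2 t ht hl, h3 t ht hl]
  total := by
    intro p α h1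
    have hα : α + 1 < κ.ord := (Cardinal.isSuccLimit_ord hk).add_one_lt h1
    obtain ⟨t, ht, hlen⟩ := exists_long hP hcl p _ hα
    have hl : α < t.len := Order.add_one_le_iff.1 hlen
    refine ⟨cond hP p t ht, cond_le _ _ _ _, bit (t.val ⟨α, hl⟩), ?_, h1, ?_⟩
    · have h2 : (1 : Ordinal.{u}) < κ.ord := by
        have h0 : (0 : Ordinal.{u}) < κ.ord := lt_of_le_of_lt bot_le h1
        have := (Cardinal.isSuccLimit_ord hk).add_one_lt h0
        simpa using this
      cases t.val ⟨α, hl⟩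
      · simp only [bit, Bool.false_eq_true, if_false]
        exact lt_of_le_of_lt bot_le h1
      · simpa only [bit, if_true] using h2
    · intro s hs h
      rw [comp_val hs.2 h hl]

theorem tree_main (hl : ℵ₀ ≤ lam) (hκ : κ = Order.succ lam) (hne : P.Nonempty)
    (hP : IsTreeForcing P) (hcl : LtClosed κ P) (hb : Bounding κ P) (hcc : SuccCC κ P) :
    False := by
  have hk : ℵ₀ ≤ κ := hl.trans (by rw [hκ]; exact Order.le_succ _)
  have : Nonempty P := hne.to_subtype
  refine no_bounding hl hκ hcl hcc hb (branch hk hP hcl) ?_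
  intro p
  obtain ⟨t, ht⟩ := hP.nonempty _ p.2
  obtain ⟨s, hs, _, hsp⟩ := hP.splits _ p.2 t ht
  choose w hw hsw using hsp
  refine ⟨s.len, s.len_lt, fun b => cond hP p (w b) (hw b), fun b => cond_le _ _ _ _, bit,
    bit_ne, fun b => ⟨s.len_lt, fun r hr h => ?_⟩⟩
  obtain ⟨_, _, hlw, v⟩ := hsw b
  rw [comp_val hr.2 h hlw, v]

end Pool.Agent.H348R6.TF
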